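import Pool.Agent.H385R5.HE10B

/-!
# HE10: the conductors are large on average
-/

open Complex Filter Topology Set MeasureTheory

namespace H385

open Pool.Agent.H304R3.HK (tc HC CS bb LamK psi bH aH LH)

namespace H10

/-- number of characters of given conductor -/
theorem card_cond (q d : ZI) (hd : d ≠ 0) (S : Finset (MulChar (RQ q) ℂ))
    (ψ : MulChar (RQ q) ℂ → (ZI →* ℂ))
    (h : ∀ χ ∈ S, HC d (ψ χ) ∧ ∀ a : ZI, IsCoprime a q → ψ χ a = chiZ q χ a) :
    S.card ≤ nrm d := by
  classical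
  have hfin : Finite (RQ d) := he1_finite hd
  have hft : Fintype (RQ d) := Fintype.ofFinite _
  let v : S → (ZI →* ℂ) := fun χ => ψ χ.1
  have hinj : Function.Injective v := by
    intro χ χ' hχ
    apply Subtype.ext
    apply MulChar.ext
    intro u
    obtain ⟨a, ha⟩ := Ideal.Quotient.mk_surjective (u : RQ q)
    obtain ⟨b, hb⟩ := Ideal.Quotient.mk_surjective ((u⁻¹ : (RQ q)ˣ) : RQ q)
    have h1 : IsCoprime a q := by
      have h2 : Ideal.Quotient.mk (Ideal.span {q}) (a * b) =
          Ideal.Quotient.mk (Ideal.span {q}) 1 := by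
        rw [map_mul, ha, hb, map_one, Units.mul_inv]
      rw [Ideal.Quotient.eq, Ideal.mem_span_singleton] at h2
      obtain ⟨w, hw⟩ := h2
      exact ⟨b, -w, by linear_combination hw⟩
    have h3 := (h χ.1 χ.2).2 a h1
    have h4 := (h χ'.1 χ'.2).2 a h1
    have h5 : ψ χ.1 = ψ χ'.1 := hχ
    rw [h5, h4] at h3
    have h6 : χ'.1 (Ideal.Quotient.mk (Ideal.span {q}) a) =
        χ.1 (Ideal.Quotient.mk (Ideal.span {q}) a) := h3
    rw [ha] at h6
    exact h6.symm
  have hli := (linearIndependent_monoidHom ZI ℂ).comp v hinj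
  let f : S → (RQ d → ℂ) := fun χ y => ψ χ.1 (Quotient.out y : ZI)
  let L : (RQ d → ℂ) →ₗ[ℂ] (ZI → ℂ) :=
    { toFun := fun F a => F (Ideal.Quotient.mk (Ideal.span {d}) a)
      map_add' := fun _ _ => rfl
      map_smul' := fun _ _ => rfl }
  have hLf : (fun χ : S => L (f χ)) = fun χ : S => ((v χ : ZI →* ℂ) : ZI → ℂ) := by
    funext χ a
    show ψ χ.1 (Quotient.out (Ideal.Quotient.mk (Ideal.span {d}) a) : ZI) = ψ χ.1 a
    apply (h χ.1 χ.2).1.per
    have h2 : Ideal.Quotient.mk (Ideal.span {d})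
        (Quotient.out (Ideal.Quotient.mk (Ideal.span {d}) a) : ZI) =
        Ideal.Quotient.mk (Ideal.span {d}) a := Ideal.Quotient.mk_out _
    rwa [Ideal.Quotient.eq, Ideal.mem_span_singleton] at h2
  have hli2 : LinearIndependent ℂ f := by
    apply LinearIndependent.of_comp L
    show LinearIndependent ℂ (fun χ : S => L (f χ))
    rw [hLf]
    exact hli
  have h1 := hli2.fintype_card_le_finrank
  rw [Fintype.card_coe, Module.finrank_fintype_fun_eq_card, ← Nat.card_eq_fintype_card,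
    card_RQ] at h1
  exact h1

theorem log_tc (a : ZI) (_ha : a ≠ 0) : Real.log ‖tc a‖ = (1 / 2) * Real.log (nrm a) := by
  have h1 := Pool.Agent.H304R3.HK.T2.tc_norm_sq a
  have h2 : ((nrm a : ℕ) : ℝ) = ‖tc a‖ ^ 2 := by
    rw [h1]
    have := nrm_eq a
    exact_mod_cast this
  rw [h2, Real.log_pow]
  push_cast
  ring

end H10

open H10 in
/-- HE10: the conductors are large on average (for any choice of the primitive characters) -/
theorem he_cond (cd : (q : ZI) → MulChar (RQ q) ℂ → ZI)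
    (pr : (q : ZI) → MulChar (RQ q) ℂ → (ZI →* ℂ))
    (hprim : ∀ q : ZI, q ≠ 0 → ∀ χ ∈ FQs q, cd q χ ∣ q ∧ HC (cd q χ) (pr q χ) ∧
      ∀ a : ZI, IsCoprime a q → pr q χ a = chiZ q χ a) (ε : ℝ) (hε : 0 < ε) :
    ∃ C : ℝ, 0 < C ∧ ∀ q : ZI, q ≠ 0 →
      ∑ χ ∈ FQs q, (Real.log ‖tc q‖ - Real.log ‖tc (cd q χ)‖) ≤
        (ε * Real.log ‖tc q‖ + C) * ((FQs q).card : ℝ) := by
  classical
  set δ : ℝ := ε / 5 with hδ
  have hδ0 : 0 < δ := by positivity
  obtain ⟨C1, hC1, hdiv⟩ := Pool.Agent.H369R2.divisor_bound δ hδ0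
  refine ⟨32 * C1 ^ 4 / δ + 1, by positivity, fun q hq => ?_⟩
  set N := nrm q with hN
  have hN1 : 1 ≤ N := nrm_pos hq
  have hN1' : (1 : ℝ) ≤ N := by exact_mod_cast hN1
  have hlogN : 0 ≤ Real.log N := Real.log_nonneg hN1'
  have hcd : ∀ χ ∈ FQs q, cd q χ ≠ 0 ∧ cd q χ ∈ Dv q := by
    intro χ hχ
    have h1 := (hprim q hq χ hχ).1
    refine ⟨?_, (mem_Dv hq _).2 h1⟩
    intro h
    rw [h] at h1
    exact hq (zero_dvd_iff.1 h1)
  have hterm : ∀ χ ∈ FQs q, Real.log ‖tc q‖ - Real.log ‖tc (cd q χ)‖ =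
      (1 / 2) * (Real.log N - Real.log (nrm (cd q χ))) := by
    intro χ hχ
    rw [log_tc q hq, log_tc _ (hcd χ hχ).1]
    ring
  have hlogcd : ∀ χ ∈ FQs q, 0 ≤ Real.log (nrm (cd q χ)) := by
    intro χ hχ
    apply Real.log_nonneg
    exact_mod_cast nrm_pos (hcd χ hχ).1
  rw [Finset.sum_congr rfl hterm, log_tc q hq]
  by_cases hN4 : 4 < N
  · have hcard := fq_card q hN4
    have hphi := phi_lower q hq
    set K : ℝ := ((FQs q).card : ℝ) with hK
    set τ : ℝ := ((Dv q).card : ℝ) with hτ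
    have hτ0 : 0 ≤ τ := Nat.cast_nonneg _
    have hphi' : (N : ℝ) ≤ τ * (4 * K) := by
      rw [hcard]
      have : (N : ℝ) ≤ ((Dv q).card : ℝ) * (phiQ q : ℝ) := by exact_mod_cast hphi
      linarith
    -- divisor bound
    have hτb : τ ≤ 4 * (C1 * (N : ℝ) ^ δ) ^ 2 := by
      have h1 : τ ≤ 4 * ((N.divisors.card : ℕ) : ℝ) ^ 2 := by
        have h0 : ((Dv q).card : ℝ) ≤ ((4 * (nrm q).divisors.card ^ 2 : ℕ) : ℝ) := by
          exact_mod_cast card_Dv q hq
        rw [hτ, hN]
        push_cast at h0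
        exact h0
      have h2 := hdiv N hN1
      have h3 : ((N.divisors.card : ℕ) : ℝ) ^ 2 ≤ (C1 * (N : ℝ) ^ δ) ^ 2 :=
        pow_le_pow_left₀ (Nat.cast_nonneg _) h2 2
      linarith
    -- number of small conductors
    set B := (FQs q).filter (fun χ => ((nrm (cd q χ) : ℕ) : ℝ) ≤ (N : ℝ) ^ (1 - ε)) with hB
    have hBcard : (B.card : ℝ) ≤ τ * (N : ℝ) ^ (1 - ε) := by
      have h1 : B.card = ∑ d ∈ Dv q, (B.filter (fun χ => cd q χ = d)).card := by
        apply Finset.card_eq_sum_card_fiberwise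
        intro χ hχ
        exact (hcd χ (Finset.mem_filter.1 hχ).1).2
      rw [h1]
      push_cast
      calc ∑ d ∈ Dv q, ((B.filter (fun χ => cd q χ = d)).card : ℝ)
          ≤ ∑ _d ∈ Dv q, (N : ℝ) ^ (1 - ε) := by
            refine Finset.sum_le_sum fun d hd => ?_
            by_cases hne : (B.filter (fun χ => cd q χ = d)).Nonempty
            · obtain ⟨χ0, hχ0⟩ := hne
              rw [Finset.mem_filter, hB, Finset.mem_filter] at hχ0
              have hd0 : d ≠ 0 := by
                rw [← hχ0.2]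
                exact (hcd χ0 hχ0.1.1).1
              have h2 := card_cond q d hd0 (B.filter (fun χ => cd q χ = d)) (pr q) (by
                intro χ hχ
                rw [Finset.mem_filter, hB, Finset.mem_filter] at hχ
                have h3 := hprim q hq χ hχ.1.1
                rw [hχ.2] at h3
                exact h3.2)
              have h4 : ((B.filter (fun χ => cd q χ = d)).card : ℝ) ≤ (nrm d : ℝ) := by
                exact_mod_cast h2
              refine h4.trans ?_
              have h5 := hχ0.1.2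
              rw [hχ0.2] at h5
              exact h5
            · rw [Finset.not_nonempty_iff_eq_empty] at hne
              rw [hne, Finset.card_empty, Nat.cast_zero]
              positivity
        _ = τ * (N : ℝ) ^ (1 - ε) := by
            rw [Finset.sum_const, nsmul_eq_mul]
    -- the sum
    have hsum : ∑ χ ∈ FQs q, (1 / 2) * (Real.log N - Real.log (nrm (cd q χ))) ≤
        K * ((1 / 2) * (ε * Real.log N)) + (B.card : ℝ) * ((1 / 2) * Real.log N) := by
      have h1 : ∀ χ ∈ FQs q, (1 / 2) * (Real.log N - Real.log (nrm (cd q χ))) ≤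
          (1 / 2) * (ε * Real.log N) +
            (if ((nrm (cd q χ) : ℕ) : ℝ) ≤ (N : ℝ) ^ (1 - ε) then (1 / 2) * Real.log N else 0) := by
        intro χ hχ
        have h0 := hlogcd χ hχ
        split_ifs with h
        · have : 0 ≤ ε * Real.log N := by positivity
          linarith
        · rw [not_le] at h
          have h2 : (1 - ε) * Real.log N ≤ Real.log (nrm (cd q χ)) := by
            rw [← Real.log_rpow (by linarith)]
            exact Real.log_le_log (by positivity) h.le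
          linarith
      refine (Finset.sum_le_sum h1).trans (le_of_eq ?_)
      rw [Finset.sum_add_distrib, Finset.sum_const, nsmul_eq_mul, ← Finset.sum_filter,
        Finset.sum_const, nsmul_eq_mul]
    refine hsum.trans ?_
    -- final estimate
    have hNpos : (0 : ℝ) < N := by linarith
    have hlogb : Real.log N ≤ (N : ℝ) ^ δ / δ := Real.log_le_rpow_div hNpos.le hδ0
    have hmain : (B.card : ℝ) * ((1 / 2) * Real.log N) ≤ (32 * C1 ^ 4 / δ) * K := by
      -- multiply by τ
      have hK0 : 0 ≤ K := Nat.cast_nonneg _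
      have e1 : (B.card : ℝ) * ((1 / 2) * Real.log N) ≤
          (τ * (N : ℝ) ^ (1 - ε)) * ((1 / 2) * ((N : ℝ) ^ δ / δ)) := by
        refine mul_le_mul hBcard ?_ (by positivity) (by positivity)
        exact mul_le_mul_of_nonneg_left hlogb (by norm_num)
      refine e1.trans ?_
      have e2 : (N : ℝ) ^ (1 - ε) = (N : ℝ) * (N : ℝ) ^ (-ε) := by
        rw [sub_eq_add_neg, Real.rpow_add hNpos, Real.rpow_one]
      have e3 : (τ * (N : ℝ) ^ (1 - ε)) * ((1 / 2) * ((N : ℝ) ^ δ / δ)) ≤
          (τ * ((τ * (4 * K)) * (N : ℝ) ^ (-ε))) * ((1 / 2) * ((N : ℝ) ^ δ / δ)) := by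
        rw [e2]
        refine mul_le_mul_of_nonneg_right ?_ (by positivity)
        refine mul_le_mul_of_nonneg_left ?_ hτ0
        exact mul_le_mul_of_nonneg_right hphi' (by positivity)
      refine e3.trans ?_
      have e4 : τ * τ ≤ 16 * C1 ^ 4 * ((N : ℝ) ^ δ) ^ 4 := by
        have := mul_le_mul hτb hτb hτ0 (by positivity)
        refine this.trans (le_of_eq ?_)
        ring
      have e5 : ((N : ℝ) ^ δ) ^ 4 * ((N : ℝ) ^ (-ε) * (N : ℝ) ^ δ) = 1 := by
        rw [← Real.rpow_natCast, ← Real.rpow_mul hNpos.le, ← Real.rpow_add hNpos,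
          ← Real.rpow_add hNpos]
        have : δ * ((4 : ℕ) : ℝ) + (-ε + δ) = 0 := by
          rw [hδ]
          push_cast
          ring
        rw [this, Real.rpow_zero]
      calc (τ * ((τ * (4 * K)) * (N : ℝ) ^ (-ε))) * ((1 / 2) * ((N : ℝ) ^ δ / δ))
          = (τ * τ) * (2 * K / δ * ((N : ℝ) ^ (-ε) * (N : ℝ) ^ δ)) := by ring
        _ ≤ (16 * C1 ^ 4 * ((N : ℝ) ^ δ) ^ 4) *
            (2 * K / δ * ((N : ℝ) ^ (-ε) * (N : ℝ) ^ δ)) :=
            mul_le_mul_of_nonneg_right e4 (by positivity)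
        _ = (32 * C1 ^ 4 / δ * K) *
            (((N : ℝ) ^ δ) ^ 4 * ((N : ℝ) ^ (-ε) * (N : ℝ) ^ δ)) := by ring
        _ = 32 * C1 ^ 4 / δ * K := by rw [e5, mul_one]
    have hK0 : 0 ≤ K := Nat.cast_nonneg _
    have : (ε * ((1 / 2) * Real.log N) + (32 * C1 ^ 4 / δ + 1)) * K =
        K * ((1 / 2) * (ε * Real.log N)) + (32 * C1 ^ 4 / δ) * K + K := by ring
    rw [this]
    linarith
  · have hN4' : (N : ℝ) ≤ 4 := by
      have : N ≤ 4 := by omega
      exact_mod_cast this
    have hl4 : Real.log N ≤ 2 := by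
      have h1 : Real.log N ≤ Real.log 4 := Real.log_le_log (by linarith) hN4'
      have h2 : Real.log 4 = 2 * Real.log 2 := by
        rw [show (4 : ℝ) = 2 ^ 2 by norm_num, Real.log_pow]
        push_cast
        ring
      have h3 := Real.log_two_lt_d9
      linarith
    have h1 : ∀ χ ∈ FQs q, (1 / 2) * (Real.log N - Real.log (nrm (cd q χ))) ≤ 1 := by
      intro χ hχ
      have := hlogcd χ hχ
      linarith
    refine (Finset.sum_le_card_nsmul _ _ _ h1).trans ?_
    rw [nsmul_eq_mul, mul_one]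
    have h2 : (1 : ℝ) ≤ ε * ((1 / 2) * Real.log N) + (32 * C1 ^ 4 / δ + 1) := by
      have : 0 ≤ ε * ((1 / 2) * Real.log N) := by positivity
      have : 0 ≤ 32 * C1 ^ 4 / δ := by positivity
      linarith
    exact le_mul_of_one_le_left (Nat.cast_nonneg _) h2

end H385
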