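import Pool.Agent.H385R5.HE123

/-!
# HE10, part A: counting lemmas for the residue rings of the Gaussian integers
-/

open Complex Filter Topology Set MeasureTheory

namespace H385

open Pool.Agent.H304R3.HK (tc HC CS bb LamK psi bH aH LH)

namespace H10

/-- coordinates -/
def eqv : ZI ≃ₗ[ℤ] (Fin 2 → ℤ) where
  toFun a := ![a.re, a.im]
  invFun v := ⟨v 0, v 1⟩
  map_add' a b := by
    ext i
    fin_cases i <;> simp
  map_smul' n a := by
    ext i
    fin_cases i <;> simp
  left_inv a := by
    ext <;> simp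
  right_inv v := by
    ext i
    fin_cases i <;> simp

noncomputable def bas : Module.Basis (Fin 2) ℤ ZI := Module.Basis.ofEquivFun eqv

instance : Module.Free ℤ ZI := Module.Free.of_basis bas

instance : Module.Finite ℤ ZI := Module.Finite.of_basis bas

theorem algNorm (q : ZI) : Algebra.norm ℤ q = q.norm := by
  rw [Algebra.norm_eq_matrix_det bas, Matrix.det_fin_two]
  have h : ∀ i j, Algebra.leftMulMatrix bas q i j = eqv (q * bas j) i := by
    intro i j
    rw [Algebra.leftMulMatrix_eq_repr_mul]
    rfl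
  have hb0 : bas 0 = (⟨1, 0⟩ : ZI) := by
    apply eqv.injective
    rw [bas, Module.Basis.coe_ofEquivFun]
    ext i
    fin_cases i <;> simp [eqv]
  have hb1 : bas 1 = (⟨0, 1⟩ : ZI) := by
    apply eqv.injective
    rw [bas, Module.Basis.coe_ofEquivFun]
    ext i
    fin_cases i <;> simp [eqv]
  rw [h, h, h, h, hb0, hb1]
  simp only [eqv, LinearEquiv.coe_mk, Zsqrtd.norm]
  simp

theorem card_RQ (q : ZI) : Nat.card (RQ q) = nrm q := by
  have h1 := Ideal.absNorm_span_singleton q
  rw [algNorm] at h1
  rw [nrm, ← h1, Ideal.absNorm_apply, Submodule.cardQuot_apply]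

/-- a value coprime to `q` in a reduced class modulo `e` -/
theorem exists_coprime (q e u : ZI) (hq : q ≠ 0) (hu : IsCoprime u e) :
    ∃ t : ZI, IsCoprime (u + e * t) q := by
  classical
  let F := (UniqueFactorizationMonoid.factors q).filter (fun p => ¬ p ∣ u)
  refine ⟨F.prod, ?_⟩
  apply isCoprime_of_prime_dvd
  · rintro ⟨_, h⟩
    exact hq h
  intro z hz h1 h2
  obtain ⟨p, hp, hzp⟩ := UniqueFactorizationMonoid.exists_mem_factors_of_dvd hq
    hz.irreducible h2
  by_cases hzu : z ∣ u
  · have h3 : z ∣ e * F.prod := by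
      have := dvd_sub h1 hzu
      rwa [add_sub_cancel_left] at this
    rcases hz.dvd_or_dvd h3 with h4 | h4
    · exact hz.not_isUnit (hu.isUnit_of_dvd' hzu h4)
    · obtain ⟨r, hr, hzr⟩ := hz.exists_mem_multiset_dvd h4
      rw [Multiset.mem_filter] at hr
      apply hr.2
      have hri := UniqueFactorizationMonoid.irreducible_of_factor r hr.1
      have h5 : Associated z r := hz.irreducible.associated_of_dvd hri hzr
      exact h5.symm.dvd.trans hzu
  · have h3 : p ∣ F.prod := by
      apply Multiset.dvd_prod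
      rw [Multiset.mem_filter]
      exact ⟨hp, fun h => hzu (hzp.dvd.trans h)⟩
    have h4 : z ∣ F.prod := hzp.dvd.trans h3
    apply hzu
    have := dvd_sub h1 (Dvd.dvd.mul_left h4 e)
    rwa [add_sub_cancel_right] at this

theorem phi_mono (q e : ZI) (hq : q ≠ 0) (he : e ∣ q) : phiQ e ≤ phiQ q := by
  have hfq := he1_finite hq
  have hle : Ideal.span {q} ≤ Ideal.span {e} := by
    rw [Ideal.span_singleton_le_span_singleton]
    exact he
  let f : RQ q →+* RQ e := Ideal.Quotient.factor hle
  have hs : Function.Surjective (Units.map f.toMonoidHom) := by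
    intro y
    obtain ⟨u, hu⟩ := Ideal.Quotient.mk_surjective (y : RQ e)
    obtain ⟨v, hv⟩ := Ideal.Quotient.mk_surjective ((y⁻¹ : (RQ e)ˣ) : RQ e)
    have h1 : IsCoprime u e := by
      have h2 : Ideal.Quotient.mk (Ideal.span {e}) (u * v) =
          Ideal.Quotient.mk (Ideal.span {e}) 1 := by
        rw [map_mul, hu, hv, map_one, Units.mul_inv]
      rw [Ideal.Quotient.eq, Ideal.mem_span_singleton] at h2
      obtain ⟨w, hw⟩ := h2
      exact ⟨v, -w, by linear_combination hw⟩
    obtain ⟨t, ht⟩ := exists_coprime q e u hq h1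
    have h3 := he2_unit ht
    refine ⟨h3.unit, ?_⟩
    apply Units.ext
    show f (Ideal.Quotient.mk (Ideal.span {q}) (u + e * t)) = y
    rw [Ideal.Quotient.factor_mk, ← hu, Ideal.Quotient.eq, Ideal.mem_span_singleton]
    exact ⟨t, by ring⟩
  exact Nat.card_le_card_of_surjective _ hs

end H10

end H385
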