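import Pool.Agent.H385R5.HE10A
import Pool.Agent.H369R2.S6a
import Pool.Agent.H304R3.HK.Theta2

/-!
# HE10, part B: divisors of `q`, lower bound for `phiQ q`, characters of given conductor
-/

open Complex Filter Topology Set MeasureTheory

namespace H385

open Pool.Agent.H304R3.HK (tc HC CS bb LamK psi bH aH LH)

namespace H10

theorem nrm_eq (a : ZI) : (nrm a : ℤ) = a.re ^ 2 + a.im ^ 2 := by
  rw [nrm, Int.natCast_natAbs, abs_of_nonneg (GaussianInt.norm_nonneg a), Zsqrtd.norm]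
  ring

theorem nrm_pos {a : ZI} (ha : a ≠ 0) : 1 ≤ nrm a := by
  have := GaussianInt.norm_pos.2 ha
  rw [nrm]
  omega

theorem mem_BX (N : ℕ) (a : ZI) : a ∈ BX N ↔ 1 ≤ nrm a ∧ nrm a ≤ N := by
  unfold BX
  rw [Finset.mem_image]
  have h0 := nrm_eq a
  constructor
  · rintro ⟨p, hp, rfl⟩
    rw [Finset.mem_filter] at hp
    have h1 := hp.2.1
    have h2 := hp.2.2
    simp only at h0
    constructor <;> omega
  · rintro ⟨h1, h2⟩
    refine ⟨(a.re, a.im), ?_, rfl⟩
    rw [Finset.mem_filter, Finset.mem_product, Finset.mem_Icc, Finset.mem_Icc]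
    have e1 : a.re ^ 2 + a.im ^ 2 ≤ (N : ℤ) := by omega
    have e2 : 1 ≤ a.re ^ 2 + a.im ^ 2 := by omega
    have hN : (0 : ℤ) ≤ N := Int.natCast_nonneg N
    refine ⟨⟨⟨?_, ?_⟩, ⟨?_, ?_⟩⟩, e2, e1⟩ <;> nlinarith [sq_nonneg a.re, sq_nonneg a.im]

/-- the divisors of `q` -/
noncomputable def Dv (q : ZI) : Finset ZI :=
  @Finset.filter _ (fun d => d ∣ q) (Classical.decPred _) (BX (nrm q))

theorem mem_Dv {q : ZI} (hq : q ≠ 0) (d : ZI) : d ∈ Dv q ↔ d ∣ q := by
  classical
  unfold Dv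
  rw [Finset.mem_filter, mem_BX]
  constructor
  · exact fun h => h.2
  · intro h
    have hd : d ≠ 0 := by
      rintro rfl
      exact hq (zero_dvd_iff.1 h)
    exact ⟨⟨nrm_pos hd, he3_nrm h hq⟩, h⟩

/-- the trivial function -/
noncomputable def one0 : GaussianInt →* ℂ where
  toFun a := if a = 0 then 0 else 1
  map_one' := by simp
  map_mul' a b := by
    by_cases ha : a = 0
    · simp [ha]
    · by_cases hb : b = 0
      · simp [hb]
      · simp [ha, hb]

theorem CS_card (n : ℕ) (hn : 1 ≤ n) : (CS n).card ≤ 4 * n.divisors.card := by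
  open Pool.Agent.H304R3.HK in
  have hU : UH one0 := by
    refine ⟨by simp [one0], fun a => ?_, ?_⟩
    · show ‖(if a = 0 then 0 else 1 : ℂ)‖ ≤ 1
      split_ifs <;> simp
    · show (if (⟨0, 1⟩ : GaussianInt) = 0 then 0 else 1 : ℂ) = 1
      rw [if_neg]
      intro h
      have := congrArg Zsqrtd.im h
      simp at this
  have h1 := (Pool.Agent.H304R3.HK.lg_bb_of Pool.Agent.H304R3.HK.bb_zero
    Pool.Agent.H304R3.HK.bb_two_odd Pool.Agent.H304R3.HK.ts_bound
    Pool.Agent.H304R3.HK.f_bound Pool.Agent.H304R3.HK.gen_log one0 hU).bd n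
  have h2 : bb one0 n = (1 / 4 : ℂ) * (CS n).card := by
    unfold bb
    congr 1
    rw [Finset.sum_congr rfl (g := fun _ => (1 : ℂ)), Finset.sum_const, nsmul_eq_mul, mul_one]
    intro p hp
    unfold CS at hp
    rw [Finset.mem_filter] at hp
    show (if (⟨p.1, p.2⟩ : GaussianInt) = 0 then 0 else 1 : ℂ) = 1
    rw [if_neg]
    intro h
    have e1 := congrArg Zsqrtd.re h
    have e2 := congrArg Zsqrtd.im h
    simp only [Zsqrtd.re_zero, Zsqrtd.im_zero] at e1 e2
    have := hp.2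
    rw [e1, e2] at this
    have hn' : (1 : ℤ) ≤ n := by exact_mod_cast hn
    simp at this
    omega
  rw [h2, norm_mul, Complex.norm_natCast] at h1
  have h3 : ‖(1 / 4 : ℂ)‖ = 1 / 4 := by
    rw [norm_div, norm_one]
    simp
  rw [h3] at h1
  have h4 : ((CS n).card : ℝ) ≤ 4 * n.divisors.card := by linarith
  exact_mod_cast h4

theorem card_Dv (q : ZI) (hq : q ≠ 0) : (Dv q).card ≤ 4 * (nrm q).divisors.card ^ 2 := by
  classical
  have hN := nrm_pos hq
  have hsub : Dv q ⊆ (nrm q).divisors.biUnion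
      (fun n => (CS n).image (fun p => (⟨p.1, p.2⟩ : ZI))) := by
    intro d hd
    rw [mem_Dv hq] at hd
    rw [Finset.mem_biUnion]
    have hdn : nrm d ∣ nrm q := by
      obtain ⟨e, rfl⟩ := hd
      unfold nrm
      rw [Zsqrtd.norm_mul, Int.natAbs_mul]
      exact Dvd.intro _ rfl
    refine ⟨nrm d, Nat.mem_divisors.2 ⟨hdn, by omega⟩, ?_⟩
    rw [Finset.mem_image]
    refine ⟨(d.re, d.im), ?_, rfl⟩
    unfold CS
    rw [Finset.mem_filter, Finset.mem_product, Finset.mem_Icc, Finset.mem_Icc]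
    have h0 := nrm_eq d
    have hN : (0 : ℤ) ≤ nrm d := Int.natCast_nonneg _
    refine ⟨⟨⟨?_, ?_⟩, ⟨?_, ?_⟩⟩, h0.symm⟩ <;> nlinarith [sq_nonneg d.re, sq_nonneg d.im]
  refine (Finset.card_le_card hsub).trans (Finset.card_biUnion_le.trans ?_)
  calc ∑ n ∈ (nrm q).divisors, ((CS n).image (fun p => (⟨p.1, p.2⟩ : ZI))).card
      ≤ ∑ _n ∈ (nrm q).divisors, 4 * (nrm q).divisors.card := by
        refine Finset.sum_le_sum fun n hn => ?_
        have hn' := Nat.mem_divisors.1 hn
        have hn1 : 1 ≤ n := Nat.pos_of_ne_zero (fun h => by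
          rw [h] at hn'
          exact hn'.2 (zero_dvd_iff.1 hn'.1))
        refine Finset.card_image_le.trans ((CS_card n hn1).trans ?_)
        exact Nat.mul_le_mul_left _ (Finset.card_le_card
          (Nat.divisors_subset_of_dvd hn'.2 hn'.1))
    _ = _ := by
        rw [Finset.sum_const, smul_eq_mul]
        ring

/-- lower bound for the number of units -/
theorem phi_lower (q : ZI) (hq : q ≠ 0) : nrm q ≤ (Dv q).card * phiQ q := by
  classical
  have hex : ∀ d : {d // d ∈ Dv q}, ∃ e : ZI, q = d.1 * e := fun d => (mem_Dv hq d.1).1 d.2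
  choose e he using hex
  have he0 : ∀ d, e d ≠ 0 := by
    intro d h
    apply hq
    rw [he d, h, mul_zero]
  have hfin : ∀ d : {d // d ∈ Dv q}, Finite (RQ (e d)) := fun d => he1_finite (he0 d)
  let g : (Σ d : {d // d ∈ Dv q}, (RQ (e d))ˣ) → RQ q := fun x =>
    Ideal.Quotient.mk (Ideal.span {q}) (x.1.1 * (Quotient.out (x.2 : RQ (e x.1)) : ZI))
  have hsurj : Function.Surjective g := by
    intro y
    obtain ⟨a, hay, ha0⟩ : ∃ a : ZI, Ideal.Quotient.mk (Ideal.span {q}) a = y ∧ a ≠ 0 := by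
      obtain ⟨a, ha⟩ := Ideal.Quotient.mk_surjective y
      by_cases h : a = 0
      · refine ⟨q, ?_, hq⟩
        rw [← ha, h, map_zero, Ideal.Quotient.eq_zero_iff_mem]
        exact Ideal.mem_span_singleton_self q
      · exact ⟨a, ha, h⟩
    set d := EuclideanDomain.gcd a q with hd
    have hd0 : d ≠ 0 := by
      intro h
      exact hq (EuclideanDomain.gcd_eq_zero_iff.1 h).2
    obtain ⟨u0, hu0⟩ : d ∣ a := EuclideanDomain.gcd_dvd_left a q
    have hdq : d ∣ q := EuclideanDomain.gcd_dvd_right a q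
    have hdm : d ∈ Dv q := (mem_Dv hq d).2 hdq
    have h1 := he ⟨d, hdm⟩
    have hco : IsCoprime u0 (e ⟨d, hdm⟩) := by
      have hb := EuclideanDomain.gcd_eq_gcd_ab a q
      rw [← hd] at hb
      refine ⟨EuclideanDomain.gcdA a q, EuclideanDomain.gcdB a q, ?_⟩
      apply mul_left_cancel₀ hd0
      simp only at h1
      linear_combination (norm := skip) -hb
      linear_combination (-EuclideanDomain.gcdA a q) * hu0 - EuclideanDomain.gcdB a q * h1
    have hun := he2_unit hco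
    refine ⟨⟨⟨d, hdm⟩, hun.unit⟩, ?_⟩
    rw [← hay]
    show Ideal.Quotient.mk (Ideal.span {q}) (d * (Quotient.out (hun.unit : RQ (e ⟨d, hdm⟩)) : ZI)) =
      Ideal.Quotient.mk (Ideal.span {q}) a
    have h2 : Ideal.Quotient.mk (Ideal.span {e ⟨d, hdm⟩})
        (Quotient.out (hun.unit : RQ (e ⟨d, hdm⟩)) : ZI) =
        Ideal.Quotient.mk (Ideal.span {e ⟨d, hdm⟩}) u0 := by
      rw [Ideal.Quotient.mk_out]
      rfl
    rw [Ideal.Quotient.eq, Ideal.mem_span_singleton] at h2 ⊢
    obtain ⟨w, hw⟩ := h2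
    refine ⟨w, ?_⟩
    simp only at h1
    linear_combination d * hw - hu0 - w * h1
  have h1 := Nat.card_le_card_of_surjective g hsurj
  rw [card_RQ, Nat.card_sigma] at h1
  refine h1.trans ?_
  calc ∑ d : {d // d ∈ Dv q}, Nat.card (RQ (e d))ˣ
      ≤ ∑ _d : {d // d ∈ Dv q}, phiQ q := by
        refine Finset.sum_le_sum fun d _ => ?_
        exact phi_mono q (e d) hq ⟨d.1, by rw [mul_comm]; exact he d⟩
    _ = (Dv q).card * phiQ q := by
        rw [Finset.sum_const, Finset.card_univ, Fintype.card_coe, smul_eq_mul]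

end H10

end H385
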