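import Pool.Agent.H385R5.HeDefs

/-!
# HE9: the primitive character inducing a character of `(ℤ[i]/q)ˣ` with `χ(i) = -i`
-/

open Complex Filter Topology Set MeasureTheory

namespace H385

open Pool.Agent.H304R3.HK (tc HC CS bb LamK psi bH aH LH)

theorem he9_aux_prime (a : ZI) (q : ZI) (hq : q ≠ 0) :
    ∃ t : ZI, ∀ p : ZI, Prime p → (p ∣ t ↔ (p ∣ q ∧ ¬ p ∣ a)) := by
  revert hq
  refine UniqueFactorizationMonoid.induction_on_prime q ?_ ?_ ?_
  · intro h; exact absurd rfl h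
  · intro u hu _
    refine ⟨1, fun p hp => ⟨fun h => absurd (isUnit_of_dvd_one h) hp.not_isUnit, fun h => ?_⟩⟩
    exact absurd (isUnit_of_dvd_unit h.1 hu) hp.not_isUnit
  · intro x p0 hx hp0 ih _
    obtain ⟨t, ht⟩ := ih hx
    have key : ∀ p : ZI, Prime p → p ∣ p0 → p0 ∣ p := by
      intro p hp h
      exact (hp.associated_of_dvd hp0 h).symm.dvd
    by_cases ha : p0 ∣ a
    · refine ⟨t, fun p hp => ?_⟩
      rw [ht p hp]
      constructor
      · rintro ⟨h1, h2⟩
        exact ⟨h1.mul_left _, h2⟩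
      · rintro ⟨h1, h2⟩
        rcases hp.dvd_or_dvd h1 with h | h
        · exact absurd (h.trans ha) h2
        · exact ⟨h, h2⟩
    · refine ⟨p0 * t, fun p hp => ?_⟩
      constructor
      · intro h
        rcases hp.dvd_or_dvd h with h | h
        · exact ⟨h.mul_right _, fun h' => ha ((key p hp h).trans h')⟩
        · obtain ⟨h1, h2⟩ := (ht p hp).1 h
          exact ⟨h1.mul_left _, h2⟩
      · rintro ⟨h1, h2⟩
        rcases hp.dvd_or_dvd h1 with h | h
        · exact h.mul_right _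
        · exact ((ht p hp).2 ⟨h, h2⟩).mul_left _

theorem he9_lift (q d a : ZI) (hq : q ≠ 0) (had : IsCoprime a d) :
    ∃ b : ZI, d ∣ b - a ∧ IsCoprime b q := by
  obtain ⟨t, ht⟩ := he9_aux_prime a q hq
  refine ⟨a + d * t, ⟨t, by ring⟩, ?_⟩
  refine isCoprime_of_prime_dvd (fun h => hq h.2) ?_
  intro p hp h1 h2
  by_cases hpa : p ∣ a
  · have h3 : p ∣ d * t := (dvd_add_right hpa).1 h1
    rcases hp.dvd_or_dvd h3 with h | h
    · exact hp.not_isUnit (had.isUnit_of_dvd' hpa h)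
    · exact ((ht p hp).1 h).2 hpa
  · have h3 : p ∣ t := (ht p hp).2 ⟨h2, hpa⟩
    exact hpa ((dvd_add_left (h3.mul_left d)).1 h1)

theorem he9_per (q : ZI) (χ : MulChar (RQ q) ℂ) (a b : ZI) (h : q ∣ a - b) :
    chiZ q χ a = chiZ q χ b := by
  have h1 : (Ideal.Quotient.mk (Ideal.span {q})) a = (Ideal.Quotient.mk (Ideal.span {q})) b := by
    rw [Ideal.Quotient.eq, Ideal.mem_span_singleton]
    exact h
  show χ ((Ideal.Quotient.mk (Ideal.span {q})) a) = χ ((Ideal.Quotient.mk (Ideal.span {q})) b)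
  rw [h1]

theorem he9_unit (q a : ZI) (h : IsCoprime a q) :
    IsUnit ((Ideal.Quotient.mk (Ideal.span {q})) a) := by
  obtain ⟨u, v, huv⟩ := h
  refine IsUnit.of_mul_eq_one ((Ideal.Quotient.mk (Ideal.span {q})) u) ?_
  rw [← map_mul, ← map_one (Ideal.Quotient.mk (Ideal.span {q})), Ideal.Quotient.eq,
    Ideal.mem_span_singleton]
  exact ⟨-v, by linear_combination huv⟩

theorem he9_ne (q : ZI) (χ : MulChar (RQ q) ℂ) (a : ZI) (h : IsCoprime a q) :
    chiZ q χ a ≠ 0 := by
  have h1 := (he9_unit q a h).map χ.toMonoidHom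
  exact h1.ne_zero

theorem he9_fin {q : ZI} (hq : q ≠ 0) : Finite (RQ q) := by
  have hN : 0 < q.norm := GaussianInt.norm_pos.2 hq
  let f : Fin q.norm.natAbs × Fin q.norm.natAbs → RQ q := fun x =>
    Ideal.Quotient.mk (Ideal.span {q}) (⟨((x.1 : ℕ) : ℤ), ((x.2 : ℕ) : ℤ)⟩ : ZI)
  refine Finite.of_surjective f ?_
  intro y
  obtain ⟨a, rfl⟩ := Ideal.Quotient.mk_surjective y
  have h1 : (a.re % q.norm).toNat < q.norm.natAbs := by
    have := Int.emod_nonneg a.re hN.ne'
    have := Int.emod_lt_of_pos a.re hN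
    omega
  have h2 : (a.im % q.norm).toNat < q.norm.natAbs := by
    have := Int.emod_nonneg a.im hN.ne'
    have := Int.emod_lt_of_pos a.im hN
    omega
  refine ⟨(⟨_, h1⟩, ⟨_, h2⟩), ?_⟩
  simp only [f]
  rw [Int.toNat_of_nonneg (Int.emod_nonneg a.re hN.ne'),
    Int.toNat_of_nonneg (Int.emod_nonneg a.im hN.ne'), Ideal.Quotient.eq,
    Ideal.mem_span_singleton]
  have h3 : q ∣ ((q.norm : ℤ) : ZI) := ⟨star q, Zsqrtd.norm_eq_mul_conj q⟩
  have h4 : (⟨a.re % q.norm, a.im % q.norm⟩ : ZI) - a =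
      ((q.norm : ℤ) : ZI) * (⟨-(a.re / q.norm), -(a.im / q.norm)⟩ : ZI) := by
    have e1 := Int.emod_add_mul_ediv a.re q.norm
    have e2 := Int.emod_add_mul_ediv a.im q.norm
    ext
    · rw [Zsqrtd.re_sub, Zsqrtd.re_mul]
      simp only [Zsqrtd.re_intCast, Zsqrtd.im_intCast]
      linarith
    · rw [Zsqrtd.im_sub, Zsqrtd.im_mul]
      simp only [Zsqrtd.re_intCast, Zsqrtd.im_intCast]
      linarith
  rw [h4]
  exact Dvd.dvd.mul_right h3 _

theorem he9_norm (q : ZI) (hq : q ≠ 0) (χ : MulChar (RQ q) ℂ) (a : ZI) (h : IsCoprime a q) :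
    ‖chiZ q χ a‖ = 1 := by
  have h0 := he9_fin hq
  obtain ⟨u, hu⟩ := he9_unit q a h
  have h1 : u ^ (Nat.card (RQ q)ˣ) = 1 := pow_card_eq_one'
  have h2 : chiZ q χ a = χ (u : RQ q) := by
    rw [hu]
    rfl
  have h3 : (chiZ q χ a) ^ (Nat.card (RQ q)ˣ) = 1 := by
    rw [h2, ← map_pow, ← Units.val_pow_eq_pow_val, h1, Units.val_one, map_one]
  exact Complex.norm_eq_one_of_pow_eq_one h3 Nat.card_pos.ne'

/-- membership in the set of divisors -/
def He9D (q : ZI) (χ : MulChar (RQ q) ℂ) (d : ZI) : Prop :=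
  d ∣ q ∧ ∀ a : ZI, IsCoprime a q → d ∣ a - 1 → chiZ q χ a = 1

theorem he9_wd {q : ZI} {χ : MulChar (RQ q) ℂ} {d : ZI} (hd : He9D q χ d) {b b' : ZI}
    (hb : IsCoprime b q) (hb' : IsCoprime b' q) (h : d ∣ b - b') :
    chiZ q χ b = chiZ q χ b' := by
  obtain ⟨u, v, huv⟩ := hb'
  have hu : IsCoprime u q := ⟨b', v, by linear_combination huv⟩
  have h1 : chiZ q χ (u * b) = 1 := by
    refine hd.2 _ (hu.mul_left hb) ?_
    obtain ⟨c, hc⟩ := h
    obtain ⟨e, he⟩ := hd.1
    refine ⟨u * c - v * e, ?_⟩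
    linear_combination u * hc - v * he + huv
  have h2 : chiZ q χ (u * b') = 1 := by
    rw [← map_one (chiZ q χ)]
    exact he9_per q χ _ _ ⟨-v, by linear_combination huv⟩
  have h3 : chiZ q χ u * chiZ q χ b = chiZ q χ u * chiZ q χ b' := by
    rw [← map_mul, ← map_mul, h1, h2]
  exact mul_left_cancel₀ (he9_ne q χ u hu) h3

theorem he9_cop {a b d : ZI} (h : d ∣ a - b) (hb : IsCoprime b d) : IsCoprime a d := by
  obtain ⟨c, hc⟩ := h
  have : a = b + d * c := by linear_combination hc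
  rw [this]
  exact (IsCoprime.add_mul_left_left_iff).2 hb

open Classical in
/-- the primitive character -/
noncomputable def he9_psi (q : ZI) (hq : q ≠ 0) (χ : MulChar (RQ q) ℂ) (d : ZI)
    (hd : He9D q χ d) : ZI →* ℂ where
  toFun a := if h : IsCoprime a d then chiZ q χ (he9_lift q d a hq h).choose else 0
  map_one' := by
    have h : IsCoprime (1 : ZI) d := isCoprime_one_left
    rw [dif_pos h]
    obtain ⟨h1, h2⟩ := (he9_lift q d 1 hq h).choose_spec
    exact hd.2 _ h2 h1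
  map_mul' := by
    intro a b
    by_cases ha : IsCoprime a d
    · by_cases hb : IsCoprime b d
      · have hab : IsCoprime (a * b) d := ha.mul_left hb
        rw [dif_pos ha, dif_pos hb, dif_pos hab, ← map_mul]
        obtain ⟨a1, a2⟩ := (he9_lift q d a hq ha).choose_spec
        obtain ⟨b1, b2⟩ := (he9_lift q d b hq hb).choose_spec
        obtain ⟨c1, c2⟩ := (he9_lift q d (a * b) hq hab).choose_spec
        refine he9_wd hd c2 (a2.mul_left b2) ?_
        obtain ⟨x, hx⟩ := a1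
        obtain ⟨y, hy⟩ := b1
        obtain ⟨z, hz⟩ := c1
        generalize (he9_lift q d a hq ha).choose = A at *
        generalize (he9_lift q d b hq hb).choose = B at *
        generalize (he9_lift q d (a * b) hq hab).choose = C at *
        refine ⟨z - B * x - a * y, ?_⟩
        linear_combination hz - B * hx - a * hy
      · have hab : ¬ IsCoprime (a * b) d := fun h => hb h.of_mul_left_right
        rw [dif_neg hb, dif_neg hab, mul_zero]
    · have hab : ¬ IsCoprime (a * b) d := fun h => ha h.of_mul_left_left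
      rw [dif_neg ha, dif_neg hab, zero_mul]

open Classical in
theorem he9_psi_eq {q : ZI} {hq : q ≠ 0} {χ : MulChar (RQ q) ℂ} {d : ZI}
    {hd : He9D q χ d} {a b : ZI} (hb : IsCoprime b q) (h : d ∣ a - b) :
    he9_psi q hq χ d hd a = chiZ q χ b := by
  have ha : IsCoprime a d := he9_cop h (hb.of_isCoprime_of_dvd_right hd.1)
  obtain ⟨a1, a2⟩ := (he9_lift q d a hq ha).choose_spec
  show (if h : IsCoprime a d then chiZ q χ (he9_lift q d a hq h).choose else 0) = _
  rw [dif_pos ha]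
  refine he9_wd hd a2 hb ?_
  have := dvd_add a1 h
  rwa [sub_add_sub_cancel] at this

open Classical in
theorem he9_psi_zero {q : ZI} {hq : q ≠ 0} {χ : MulChar (RQ q) ℂ} {d : ZI}
    {hd : He9D q χ d} {a : ZI} (ha : ¬ IsCoprime a d) :
    he9_psi q hq χ d hd a = 0 := by
  show (if h : IsCoprime a d then chiZ q χ (he9_lift q d a hq h).choose else 0) = _
  rw [dif_neg ha]

/-- HE9: the primitive character inducing `χ` -/
theorem prim_exists (q : ZI) (hq : q ≠ 0) (χ : MulChar (RQ q) ℂ) (hχ : chiZ q χ im1 = -I) :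
    ∃ (d : ZI) (ψ : ZI →* ℂ), d ∣ q ∧ HC d ψ ∧ ∀ a : ZI, IsCoprime a q → ψ a = chiZ q χ a := by
  have hqD : He9D q χ q := by
    refine ⟨dvd_rfl, fun a _ h => ?_⟩
    rw [he9_per q χ a 1 h, map_one]
  obtain ⟨d, hd, hmin⟩ : ∃ d : ZI, He9D q χ d ∧ ∀ e : ZI, He9D q χ e →
      d.norm.natAbs ≤ e.norm.natAbs := by
    classical
    have hex : ∃ n : ℕ, ∃ d : ZI, He9D q χ d ∧ d.norm.natAbs = n := ⟨_, q, hqD, rfl⟩
    obtain ⟨d, hd, hn⟩ := Nat.find_spec hex
    exact ⟨d, hd, fun e he => by rw [hn]; exact Nat.find_min' hex ⟨e, he, rfl⟩⟩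
  have hd0 : d ≠ 0 := fun h => hq (by
    have := hd.1
    rw [h] at this
    exact zero_dvd_iff.1 this)
  have hfin : ∀ a : ZI, IsCoprime a q → he9_psi q hq χ d hd a = chiZ q χ a := by
    intro a ha
    exact he9_psi_eq ha (by rw [sub_self]; exact dvd_zero _)
  refine ⟨d, he9_psi q hq χ d hd, hd.1, ⟨hd0, ?_, ?_, ?_, ?_, ?_⟩, hfin⟩
  · intro a b hab
    by_cases hb : IsCoprime b d
    · obtain ⟨b1, b2⟩ := (he9_lift q d b hq hb).choose_spec
      rw [he9_psi_eq b2 (a := b) ((dvd_sub_comm).1 b1), he9_psi_eq b2 (a := a)]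
      have h1 := dvd_sub hab b1
      have h2 : a - b - ((he9_lift q d b hq hb).choose - b) =
        a - (he9_lift q d b hq hb).choose := by ring
      rwa [h2] at h1
    · have ha : ¬ IsCoprime a d := fun h => hb (he9_cop ((dvd_sub_comm).1 hab) h)
      rw [he9_psi_zero ha, he9_psi_zero hb]
  · intro a
    constructor
    · intro h
      by_contra hc
      exact h (he9_psi_zero hc)
    · intro ha
      obtain ⟨b, b1, b2⟩ := he9_lift q d a hq ha
      rw [he9_psi_eq b2 ((dvd_sub_comm).1 b1)]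
      exact he9_ne q χ b b2
  · intro a ha
    obtain ⟨b, b1, b2⟩ := he9_lift q d a hq ha
    rw [he9_psi_eq b2 ((dvd_sub_comm).1 b1)]
    exact he9_norm q hq χ b b2
  · rw [← hχ]
    refine hfin im1 ?_
    refine ⟨⟨0, -1⟩, 0, ?_⟩
    rw [zero_mul, add_zero]
    decide
  · intro e hed hde
    by_contra hcon
    push Not at hcon
    have heD : He9D q χ e := by
      refine ⟨hed.trans hd.1, fun a ha h => ?_⟩
      rw [← hfin a ha]
      exact hcon a (ha.of_isCoprime_of_dvd_right hd.1) h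
    have h1 := hmin e heD
    obtain ⟨c, hc⟩ := hed
    have hc0 : c ≠ 0 := fun h => hd0 (by rw [hc, h, mul_zero])
    have he0 : e ≠ 0 := fun h => hd0 (by rw [hc, h, zero_mul])
    have h2 : d.norm.natAbs = e.norm.natAbs * c.norm.natAbs := by
      rw [hc, Zsqrtd.norm_mul, Int.natAbs_mul]
    have h3 : c.norm.natAbs ≠ 0 := by
      have := GaussianInt.norm_pos.2 hc0
      omega
    have h4 : e.norm.natAbs ≠ 0 := by
      have := GaussianInt.norm_pos.2 he0
      omega
    have h5 : c.norm.natAbs ≠ 1 := by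
      intro h
      have hu := Zsqrtd.norm_eq_one_iff.1 h
      obtain ⟨u, hu⟩ := hu
      refine hde ?_
      rw [hc, ← hu]
      exact ⟨((u⁻¹ : ZIˣ) : ZI), by rw [mul_assoc, Units.mul_inv, mul_one]⟩
    have h6 : 2 ≤ c.norm.natAbs := by omega
    have h7 : e.norm.natAbs * 2 ≤ e.norm.natAbs * c.norm.natAbs := Nat.mul_le_mul_left _ h6
    omega

end H385
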