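import Pool.Agent.H385R5.HE8d
import Pool.Agent.H385R5.HE9
import Pool.Agent.H385R5.HE10

/-!
TEAM Q3, project HE: final form.
-/

open Complex Filter Topology Set MeasureTheory
open H370 (zset mult NN Nd Ns)

namespace H385

open Pool.Agent.H304R3.HK (tc HC CS bb LamK psi bH aH LH tc_star_mul one_le_norm_tc)

/-- all Hecke characters of infinity type one modulo `q` -/
theorem he_main : ∃ (cd : (q : ZI) → MulChar (RQ q) ℂ → ZI)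
    (pr : (q : ZI) → MulChar (RQ q) ℂ → (ZI →* ℂ)),
    (∀ q : ZI, q ≠ 0 → ∀ χ : MulChar (RQ q) ℂ, chiZ q χ im1 = -I →
      cd q χ ∣ q ∧ HC (cd q χ) (pr q χ) ∧
      ∀ a : ZI, IsCoprime a q → pr q χ a = chiZ q χ a) ∧
    ∃ C0 η : ℝ, 1 ≤ C0 ∧ 0 < η ∧ ∀ (q : ZI) (T : ℝ), q ≠ 0 →
      C0 * (1 + Real.sqrt (Real.log ‖tc q‖)) ≤ T → T ≤ ‖tc q‖ ^ η →
      0 < (FQs q).card ∧
      (0.6725 * ∑ χ ∈ FQs q, (NN (LH (pr q χ)) T (2 * T) : ℝ) ≤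
        ∑ χ ∈ FQs q, (Ns (LH (pr q χ)) T (2 * T) : ℝ)) ∧
      (0.83625 * ∑ χ ∈ FQs q, (NN (LH (pr q χ)) T (2 * T) : ℝ) ≤
        ∑ χ ∈ FQs q, (Nd (LH (pr q χ)) T (2 * T) : ℝ)) := by
  classical
  have h1 : ∀ (q : ZI) (χ : MulChar (RQ q) ℂ), ∃ (d : ZI) (ψ : ZI →* ℂ),
      q ≠ 0 → chiZ q χ im1 = -I → d ∣ q ∧ HC d ψ ∧ ∀ a : ZI, IsCoprime a q → ψ a = chiZ q χ a := by
    intro q χ
    by_cases hq : q ≠ 0
    · by_cases hχ : chiZ q χ im1 = -I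
      · obtain ⟨d, ψ, h⟩ := prim_exists q hq χ hχ
        exact ⟨d, ψ, fun _ _ => h⟩
      · exact ⟨0, 1, fun _ h => absurd h hχ⟩
    · exact ⟨0, 1, fun h => absurd h hq⟩
  choose cd pr hcp using h1
  have hprim : ∀ q : ZI, q ≠ 0 → ∀ χ ∈ FQs q, cd q χ ∣ q ∧ HC (cd q χ) (pr q χ) ∧
      ∀ a : ZI, IsCoprime a q → pr q χ a = chiZ q χ a :=
    fun q hq χ hχ => hcp q χ hq (((fq_finite q hq).2.2 χ).1 hχ)
  refine ⟨cd, pr, fun q hq χ hχ => hcp q χ hq hχ, ?_⟩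
  exact he_final cd pr hprim (fun ε hε => he_cond cd pr hprim ε hε)

end H385
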