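import Pool.Agent.H385R5.HeDefs

/-!
# HE1, HE2, HE3: finiteness, orthogonality and number of the characters with `χ(i) = -i`
-/

open Complex Filter Topology Set MeasureTheory

namespace H385

open Pool.Agent.H304R3.HK (tc HC CS bb LamK psi bH aH LH)

theorem he1_finite {q : ZI} (hq : q ≠ 0) : Finite (RQ q) := by
  have hN : 0 < q.norm := GaussianInt.norm_pos.2 hq
  let f : Fin q.norm.natAbs × Fin q.norm.natAbs → RQ q := fun x =>
    Ideal.Quotient.mk (Ideal.span {q}) (⟨((x.1 : ℕ) : ℤ), ((x.2 : ℕ) : ℤ)⟩ : ZI)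
  refine Finite.of_surjective f ?_
  intro y
  obtain ⟨a, rfl⟩ := Ideal.Quotient.mk_surjective y
  have h1 : (a.re % q.norm).toNat < q.norm.natAbs := by
    have := Int.emod_nonneg a.re hN.ne'
    have := Int.emod_lt_of_pos a.re hN
    omega
  have h2 : (a.im % q.norm).toNat < q.norm.natAbs := by
    have := Int.emod_nonneg a.im hN.ne'
    have := Int.emod_lt_of_pos a.im hN
    omega
  refine ⟨(⟨_, h1⟩, ⟨_, h2⟩), ?_⟩
  simp only [f]
  rw [Int.toNat_of_nonneg (Int.emod_nonneg a.re hN.ne'),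
    Int.toNat_of_nonneg (Int.emod_nonneg a.im hN.ne'), Ideal.Quotient.eq,
    Ideal.mem_span_singleton]
  have h3 : q ∣ ((q.norm : ℤ) : ZI) := ⟨star q, Zsqrtd.norm_eq_mul_conj q⟩
  have h4 : (⟨a.re % q.norm, a.im % q.norm⟩ : ZI) - a =
      ((q.norm : ℤ) : ZI) * (⟨-(a.re / q.norm), -(a.im / q.norm)⟩ : ZI) := by
    have e1 := Int.emod_add_mul_ediv a.re q.norm
    have e2 := Int.emod_add_mul_ediv a.im q.norm
    ext
    · rw [Zsqrtd.re_sub, Zsqrtd.re_mul]
      simp only [Zsqrtd.re_intCast, Zsqrtd.im_intCast]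
      linarith
    · rw [Zsqrtd.im_sub, Zsqrtd.im_mul]
      simp only [Zsqrtd.re_intCast, Zsqrtd.im_intCast]
      linarith
  rw [h4]
  exact Dvd.dvd.mul_right h3 _

/-- HE1: finiteness -/
theorem fq_finite (q : ZI) (hq : q ≠ 0) : Finite (MulChar (RQ q) ℂ) ∧ 0 < phiQ q ∧
    ∀ χ : MulChar (RQ q) ℂ, χ ∈ FQs q ↔ chiZ q χ im1 = -I := by
  have h0 := he1_finite hq
  have h1 : Finite (RQ q)ˣ := inferInstance
  have h2 : Finite (MulChar (RQ q) ℂ) := inferInstance
  refine ⟨h2, Nat.card_pos, fun χ => ?_⟩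
  unfold FQs
  rw [dif_pos (Set.toFinite (FQ q)), Set.Finite.mem_toFinset]
  rfl

theorem he2_sum_all {R : Type*} [CommRing R] [Finite R] [Fintype (MulChar R ℂ)] [DecidableEq R]
    (a : R) : ∑ χ : MulChar R ℂ, χ a = if a = 1 then (Nat.card Rˣ : ℂ) else 0 := by
  have hne : NeZero ((Monoid.exponent Rˣ : ℕ) : ℂ) := ⟨by
    have : Monoid.exponent Rˣ ≠ 0 := Monoid.exponent_ne_zero_of_finite
    exact_mod_cast this⟩
  split_ifs with ha
  · have h1 : Nat.card (MulChar R ℂ) = Nat.card Rˣ :=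
      MulChar.card_eq_card_units_of_hasEnoughRootsOfUnity R ℂ
    rw [ha]
    simp only [map_one, Finset.sum_const, Finset.card_univ, nsmul_eq_mul, mul_one]
    rw [← h1, Nat.card_eq_fintype_card]
  · obtain ⟨χ, hχ⟩ := MulChar.exists_apply_ne_one_of_hasEnoughRootsOfUnity R ℂ ha
    refine eq_zero_of_mul_eq_self_left hχ ?_
    simp only [Finset.mul_sum, ← MulChar.mul_apply]
    exact Fintype.sum_bijective _ (Group.mulLeft_bijective χ) _ _ fun χ' ↦ rfl

theorem he2_proj {z : ℂ} (hz : z ^ 4 = 1) :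
    (if z = -I then (1:ℂ) else 0) = 1 / 4 * ∑ j ∈ Finset.range 4, I ^ j * z ^ j := by
  have hs : ∑ j ∈ Finset.range 4, I ^ j * z ^ j = ∑ j ∈ Finset.range 4, (I * z) ^ j :=
    Finset.sum_congr rfl fun j _ => by rw [mul_pow]
  rw [hs]
  split_ifs with h
  · have h1 : I * z = 1 := by rw [h, mul_neg, I_mul_I, neg_neg]
    rw [h1]
    simp
  · have h1 : I * z ≠ 1 := by
      intro h1
      apply h
      have h2 : I * (I * z) = I * 1 := by rw [h1]
      rw [← mul_assoc, I_mul_I] at h2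
      linear_combination -h2
    have h2 := mul_neg_geom_sum (I * z) 4
    have h3 : (I * z) ^ 4 = 1 := by
      rw [mul_pow, hz, I_pow_four, one_mul]
    rw [h3, sub_self] at h2
    have h4 : 1 - I * z ≠ 0 := fun h5 => h1 (by linear_combination -h5)
    rw [(mul_eq_zero.1 h2).resolve_left h4, mul_zero]

theorem he2_unit {q a : ZI} (ha : IsCoprime a q) :
    IsUnit (Ideal.Quotient.mk (Ideal.span {q}) a) := by
  obtain ⟨u, v, huv⟩ := ha
  refine IsUnit.of_mul_eq_one (Ideal.Quotient.mk (Ideal.span {q}) u) ?_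
  rw [← map_mul, ← map_one (Ideal.Quotient.mk (Ideal.span {q})), Ideal.Quotient.eq,
    Ideal.mem_span_singleton]
  exact ⟨-v, by linear_combination huv⟩

theorem he2_im4 : im1 ^ 4 = 1 := by
  decide

open Classical in
/-- HE2: orthogonality -/
theorem fq_orth (q : ZI) (hq : q ≠ 0) (a b : ZI) (ha : IsCoprime a q) (hb : IsCoprime b q) :
    ∑ χ ∈ FQs q, chiZ q χ a * (starRingEnd ℂ) (chiZ q χ b) =
      (phiQ q : ℂ) / 4 * ∑ j ∈ Finset.range 4, I ^ j *
        (if Ideal.Quotient.mk (Ideal.span {q}) (im1 ^ j * a) =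
            Ideal.Quotient.mk (Ideal.span {q}) b then 1 else 0) := by
  obtain ⟨h2, -, hF⟩ := fq_finite q hq
  have h0 := he1_finite hq
  have hft : Fintype (MulChar (RQ q) ℂ) := Fintype.ofFinite _
  have hub := he2_unit hb
  obtain ⟨c, hc⟩ : ∃ c : RQ q, c = Ring.inverse (Ideal.Quotient.mk (Ideal.span {q}) b) := ⟨_, rfl⟩
  have hbc : Ideal.Quotient.mk (Ideal.span {q}) b * c = 1 := by
    rw [hc]
    exact Ring.mul_inverse_cancel _ hub
  have hval : ∀ (χ : MulChar (RQ q) ℂ) (x : ZI),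
      chiZ q χ x = χ (Ideal.Quotient.mk (Ideal.span {q}) x) := fun _ _ => rfl
  have hconj : ∀ χ : MulChar (RQ q) ℂ, (starRingEnd ℂ) (chiZ q χ b) = χ c := by
    intro χ
    rw [hval]
    have h3 := MulChar.star_apply' χ (Ideal.Quotient.mk (Ideal.span {q}) b)
    rw [MulChar.inv_apply, ← hc] at h3
    exact h3
  have h4 : ∀ χ : MulChar (RQ q) ℂ, (chiZ q χ im1) ^ 4 = 1 := by
    intro χ
    rw [← map_pow, he2_im4, map_one]
  have h5 : FQs q = Finset.univ.filter (fun χ => chiZ q χ im1 = -I) := by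
    ext χ
    rw [hF, Finset.mem_filter]
    simp
  rw [h5, Finset.sum_filter]
  have h6 : ∀ χ : MulChar (RQ q) ℂ,
      (if chiZ q χ im1 = -I then chiZ q χ a * (starRingEnd ℂ) (chiZ q χ b) else 0) =
      1 / 4 * ∑ j ∈ Finset.range 4, I ^ j *
        χ (Ideal.Quotient.mk (Ideal.span {q}) (im1 ^ j * a) * c) := by
    intro χ
    have h7 := he2_proj (h4 χ)
    have h8 : (if chiZ q χ im1 = -I then chiZ q χ a * (starRingEnd ℂ) (chiZ q χ b) else 0) =
        (if chiZ q χ im1 = -I then (1:ℂ) else 0) *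
          (chiZ q χ a * (starRingEnd ℂ) (chiZ q χ b)) := by
      split_ifs <;> simp
    rw [h8, h7, mul_assoc, Finset.sum_mul]
    congr 1
    refine Finset.sum_congr rfl fun j _ => ?_
    rw [hconj, map_mul χ, map_mul (Ideal.Quotient.mk (Ideal.span {q})), map_mul χ,
      hval χ a, hval χ im1, map_pow, map_pow]
    ring
  simp only [h6]
  rw [← Finset.mul_sum, Finset.sum_comm]
  have h9 : ∀ j ∈ Finset.range 4, ∑ χ : MulChar (RQ q) ℂ, I ^ j *
      χ (Ideal.Quotient.mk (Ideal.span {q}) (im1 ^ j * a) * c) =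
      (phiQ q : ℂ) * (I ^ j * (if Ideal.Quotient.mk (Ideal.span {q}) (im1 ^ j * a) =
            Ideal.Quotient.mk (Ideal.span {q}) b then 1 else 0)) := by
    intro j _
    rw [← Finset.mul_sum, he2_sum_all]
    have h10 : Ideal.Quotient.mk (Ideal.span {q}) (im1 ^ j * a) * c = 1 ↔
        Ideal.Quotient.mk (Ideal.span {q}) (im1 ^ j * a) =
          Ideal.Quotient.mk (Ideal.span {q}) b := by
      constructor
      · intro h
        calc Ideal.Quotient.mk (Ideal.span {q}) (im1 ^ j * a) =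
            Ideal.Quotient.mk (Ideal.span {q}) (im1 ^ j * a) * c *
              Ideal.Quotient.mk (Ideal.span {q}) b := by
              rw [mul_assoc, mul_comm c, hbc, mul_one]
          _ = _ := by rw [h, one_mul]
      · intro h
        rw [h, hbc]
    unfold phiQ
    by_cases h11 : Ideal.Quotient.mk (Ideal.span {q}) (im1 ^ j * a) =
          Ideal.Quotient.mk (Ideal.span {q}) b
    · rw [if_pos h11, if_pos (h10.2 h11)]
      ring
    · rw [if_neg h11, if_neg (fun h => h11 (h10.1 h))]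
      ring
  rw [Finset.sum_congr rfl h9, ← Finset.mul_sum]
  ring

theorem he3_nrm {q c : ZI} (h : q ∣ c) (hc : c ≠ 0) : nrm q ≤ nrm c := by
  have h1 : q.norm ∣ c.norm := by
    obtain ⟨d, rfl⟩ := h
    exact ⟨d.norm, Zsqrtd.norm_mul q d⟩
  have h2 : c.norm ≠ 0 := (GaussianInt.norm_pos.2 hc).ne'
  unfold nrm
  exact Nat.le_of_dvd (Int.natAbs_pos.2 h2) (Int.natAbs_dvd_natAbs.2 h1)

/-- HE3: number of characters -/
theorem fq_card (q : ZI) (hq : 4 < nrm q) : ((FQs q).card : ℝ) = (phiQ q : ℝ) / 4 := by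
  classical
  have hq0 : q ≠ 0 := by
    rintro rfl
    simp [nrm] at hq
  have h1 := fq_orth q hq0 1 1 isCoprime_one_left isCoprime_one_left
  have h2 : ∀ j ∈ Finset.range 4, j ≠ 0 → I ^ j *
        (if Ideal.Quotient.mk (Ideal.span {q}) (im1 ^ j * 1) =
            Ideal.Quotient.mk (Ideal.span {q}) 1 then (1:ℂ) else 0) = 0 := by
    intro j hj hj0
    rw [if_neg, mul_zero]
    rw [Ideal.Quotient.eq, Ideal.mem_span_singleton]
    intro hd
    rw [Finset.mem_range] at hj
    have h3 := he3_nrm hd (by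
      interval_cases j
      · exact absurd rfl hj0
      · decide
      · decide
      · decide)
    have h4 : nrm (im1 ^ j * 1 - 1) ≤ 4 := by
      interval_cases j
      · decide
      · decide
      · decide
      · decide
    omega
  rw [Finset.sum_eq_single 0 h2 (by simp)] at h1
  simp only [map_one, mul_one, Finset.sum_const, nsmul_eq_mul, pow_zero, if_true] at h1
  have h5 : (((FQs q).card : ℝ) : ℂ) = (((phiQ q : ℝ) / 4 : ℝ) : ℂ) := by
    push_cast
    exact h1
  exact_mod_cast h5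

end H385
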