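import Pool.Agent.H385R5.HeDefs

/-!
TEAM Q3 (helper385), task HE4: the mean square over the characters is diagonal for short sums.
-/

open Complex Filter Topology Set MeasureTheory

namespace H385

open Pool.Agent.H304R3.HK (tc HC CS bb LamK psi bH aH LH)

namespace HE4

open Pool.Agent.H304R3.HK.M4 (LamK_ii bb_eq mem_T norm_nn norm_zero_iff)

theorem norm_eq (a : ZI) : a.norm = a.re ^ 2 + a.im ^ 2 := by
  rw [Zsqrtd.norm_def]
  ring

theorem nrm_cast (a : ZI) : ((nrm a : ℕ) : ℤ) = a.re ^ 2 + a.im ^ 2 := by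
  unfold nrm
  rw [Int.natCast_natAbs, abs_of_nonneg (norm_nn a), norm_eq]

theorem mem_BX (N : ℕ) (a : ZI) : a ∈ BX N ↔ 1 ≤ nrm a ∧ nrm a ≤ N := by
  unfold BX
  rw [Finset.mem_image]
  have hc := nrm_cast a
  constructor
  · rintro ⟨p, hp, rfl⟩
    rw [Finset.mem_filter] at hp
    obtain ⟨-, h1, h2⟩ := hp
    simp only at hc
    constructor <;> omega
  · rintro ⟨h1, h2⟩
    refine ⟨(a.re, a.im), ?_, rfl⟩
    rw [Finset.mem_filter, Finset.mem_product, Finset.mem_Icc, Finset.mem_Icc]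
    have h3 : ∀ x : ℤ, |x| ≤ x ^ 2 := by
      intro x
      rcases eq_or_ne x 0 with h | h
      · subst h; simp
      · have : 1 ≤ |x| := Int.one_le_abs h
        rw [← sq_abs]
        nlinarith
    have h4 := abs_le.1 (h3 a.re)
    have h5 := abs_le.1 (h3 a.im)
    have h6 := sq_nonneg a.re
    have h7 := sq_nonneg a.im
    refine ⟨⟨⟨?_, ?_⟩, ?_, ?_⟩, ?_, ?_⟩ <;> simp only <;> omega

theorem unit_im1 : IsUnit im1 :=
  IsUnit.of_mul_eq_one (-im1) (by rw [mul_neg, show im1 * im1 = -1 from by decide +kernel, neg_neg])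

theorem tc_im1 (a : ZI) : tc (im1 * a) = I * tc a := by
  simp only [tc, im1, Zsqrtd.re_mul, Zsqrtd.im_mul]
  push_cast
  linear_combination (-(a.im : ℂ)) * Complex.I_sq

theorem nrm_im1 (a : ZI) : nrm (im1 * a) = nrm a := by
  have h1 := nrm_cast (im1 * a)
  have h2 := nrm_cast a
  have h3 : ((nrm (im1 * a) : ℕ) : ℤ) = (nrm a : ℕ) := by
    rw [h1, h2]
    simp only [im1, Zsqrtd.re_mul, Zsqrtd.im_mul]
    ring
  exact_mod_cast h3

theorem wZ_im1 (q : ZI) (b : ℕ → ℂ) (a : ZI) : wZ q b (im1 * a) = I * wZ q b a := by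
  unfold wZ
  by_cases h : IsCoprime a q
  · rw [if_pos h, if_pos ((isCoprime_mul_unit_left_left unit_im1 a q).2 h), nrm_im1, tc_im1, norm_mul,
      Complex.norm_I, one_mul]
    have : LamK (im1 * a) = LamK a := LamK_ii a
    rw [this]
    ring
  · rw [if_neg h, if_neg (fun h2 => h ((isCoprime_mul_unit_left_left unit_im1 a q).1 h2)), mul_zero]

theorem pow_facts (q : ZI) (b : ℕ → ℂ) (a : ZI) (j : ℕ) :
    wZ q b (im1 ^ j * a) = I ^ j * wZ q b a ∧ nrm (im1 ^ j * a) = nrm a := by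
  induction j with
  | zero => simp
  | succ j ih =>
    have e : im1 ^ (j + 1) * a = im1 * (im1 ^ j * a) := by ring
    rw [e, wZ_im1, nrm_im1, ih.1, ih.2]
    refine ⟨by ring, rfl⟩

theorem wZ_of_not (q : ZI) (b : ℕ → ℂ) (a : ZI) (h : ¬ IsCoprime a q) : wZ q b a = 0 := by
  unfold wZ
  rw [if_neg h]

theorem wZ_norm (q : ZI) (b : ℕ → ℂ) (a : ZI) :
    ‖wZ q b a‖ ^ 2 ≤ LamK a ^ 2 * ‖b (nrm a)‖ ^ 2 := by
  unfold wZ
  split_ifs with h
  · have h1 : ‖tc a / (‖tc a‖ : ℂ)‖ ≤ 1 := by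
      rw [norm_div, Complex.norm_real, norm_norm]
      exact div_self_le_one _
    have h2 : ‖((LamK a : ℝ) : ℂ)‖ = |LamK a| := by
      rw [Complex.norm_real, Real.norm_eq_abs]
    rw [norm_mul, norm_mul, h2, mul_pow, mul_pow, sq_abs]
    have h3 : ‖tc a / (‖tc a‖ : ℂ)‖ ^ 2 ≤ 1 := pow_le_one₀ (norm_nonneg _) h1
    have h4 : LamK a ^ 2 * ‖tc a / (‖tc a‖ : ℂ)‖ ^ 2 ≤ LamK a ^ 2 * 1 :=
      mul_le_mul_of_nonneg_left h3 (sq_nonneg _)
    rw [mul_one] at h4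
    exact mul_le_mul_of_nonneg_right h4 (sq_nonneg _)
  · have h5 : (0 : ℝ) ≤ LamK a ^ 2 * ‖b (nrm a)‖ ^ 2 := by positivity
    rw [norm_zero, zero_pow two_ne_zero]
    exact h5

/-- congruent elements of small norm are equal -/
theorem eq_of_mk (q : ZI) (N : ℕ) (hN : 4 * N < nrm q) (x y : ZI) (hx : nrm x ≤ N) (hy : nrm y ≤ N) :
    (Ideal.Quotient.mk (Ideal.span {q}) x = Ideal.Quotient.mk (Ideal.span {q}) y) ↔ x = y := by
  constructor
  · intro h
    rw [Ideal.Quotient.mk_eq_mk_iff_sub_mem, Ideal.mem_span_singleton] at h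
    obtain ⟨c, hc⟩ := h
    by_contra hne
    have hc0 : c ≠ 0 := by
      rintro rfl
      rw [mul_zero] at hc
      exact hne (sub_eq_zero.1 hc)
    have h1 : (nrm (x - y) : ℕ) = nrm q * nrm c := by
      rw [hc]
      unfold nrm
      rw [Zsqrtd.norm_mul, Int.natAbs_mul]
    have h2 : 1 ≤ nrm c := by
      rcases Nat.eq_zero_or_pos (nrm c) with h3 | h3
      · exfalso
        apply hc0
        apply norm_zero_iff
        unfold nrm at h3
        exact Int.natAbs_eq_zero.1 h3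
      · exact h3
    have h3 : nrm q ≤ nrm (x - y) := by
      rw [h1]
      exact Nat.le_mul_of_pos_right _ h2
    have e1 := nrm_cast (x - y)
    have e2 := nrm_cast x
    have e3 := nrm_cast y
    simp only [Zsqrtd.re_sub, Zsqrtd.im_sub] at e1
    have h4 : ((nrm (x - y) : ℕ) : ℤ) ≤ 2 * (nrm x : ℕ) + 2 * (nrm y : ℕ) := by
      rw [e1, e2, e3]
      nlinarith [sq_nonneg (x.re + y.re), sq_nonneg (x.im + y.im)]
    omega
  · rintro rfl
    rfl

open Classical in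
/-- the statement `fq_orth` -/
def Orth : Prop := ∀ (q : ZI) (_ : q ≠ 0) (a b : ZI) (_ : IsCoprime a q) (_ : IsCoprime b q),
    ∑ χ ∈ FQs q, chiZ q χ a * (starRingEnd ℂ) (chiZ q χ b) =
      (phiQ q : ℂ) / 4 * ∑ j ∈ Finset.range 4, I ^ j *
        (if Ideal.Quotient.mk (Ideal.span {q}) (im1 ^ j * a) =
            Ideal.Quotient.mk (Ideal.span {q}) b then 1 else 0)

open Classical in
/-- orthogonality against the weights -/
theorem orth_w (ho : Orth) (q : ZI) (N : ℕ) (hN : 4 * N < nrm q) (b : ℕ → ℂ) (a b' : ZI)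
    (ha : a ∈ BX N) (hb : b' ∈ BX N) :
    (wZ q b a * (starRingEnd ℂ) (wZ q b b')) *
        ∑ χ ∈ FQs q, chiZ q χ a * (starRingEnd ℂ) (chiZ q χ b') =
      (phiQ q : ℂ) / 4 * ∑ j ∈ Finset.range 4,
        (if im1 ^ j * a = b' then I ^ j * (wZ q b a * (starRingEnd ℂ) (wZ q b b')) else 0) := by
  have hq : q ≠ 0 := by
    rintro rfl
    have : nrm (0 : ZI) = 0 := by
      unfold nrm
      simp
    omega
  rw [mem_BX] at ha hb
  by_cases hca : IsCoprime a q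
  · by_cases hcb : IsCoprime b' q
    · rw [ho q hq a b' hca hcb]
      rw [Finset.mul_sum, Finset.mul_sum, Finset.mul_sum]
      refine Finset.sum_congr rfl fun j _ => ?_
      have h1 := eq_of_mk q N hN (im1 ^ j * a) b' (by rw [(pow_facts q b a j).2]; exact ha.2) hb.2
      by_cases h2 : im1 ^ j * a = b'
      · rw [if_pos (h1.2 h2), if_pos h2]
        ring
      · rw [if_neg (fun h3 => h2 (h1.1 h3)), if_neg h2]
        ring
    · rw [wZ_of_not q b b' hcb]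
      simp
  · rw [wZ_of_not q b a hca]
    simp

theorem diag (ho : Orth) (q : ZI) (N : ℕ) (hN : 4 * N < nrm q) (b : ℕ → ℂ) :
    ∑ χ ∈ FQs q, ‖(1 / 4 : ℂ) * ∑ a ∈ BX N, wZ q b a * chiZ q χ a‖ ^ 2 =
      (phiQ q : ℝ) / 16 * ∑ a ∈ BX N, ‖wZ q b a‖ ^ 2 := by
  classical
  have h1 : ∀ χ : MulChar (RQ q) ℂ,
      ((‖(1 / 4 : ℂ) * ∑ a ∈ BX N, wZ q b a * chiZ q χ a‖ ^ 2 : ℝ) : ℂ) =
      (1 / 16 : ℂ) * ∑ a ∈ BX N, ∑ b' ∈ BX N, (wZ q b a * (starRingEnd ℂ) (wZ q b b')) *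
        (chiZ q χ a * (starRingEnd ℂ) (chiZ q χ b')) := by
    intro χ
    push_cast
    rw [← Complex.mul_conj']
    rw [map_mul, map_sum]
    have e4 : (starRingEnd ℂ) (1 / 4 : ℂ) = 1 / 4 := by
      rw [map_div₀, map_one, Complex.conj_ofNat]
    rw [e4]
    have e5 : (1 / 4 : ℂ) * (∑ a ∈ BX N, wZ q b a * chiZ q χ a) *
        (1 / 4 * ∑ a ∈ BX N, (starRingEnd ℂ) (wZ q b a * chiZ q χ a)) =
        1 / 16 * ((∑ a ∈ BX N, wZ q b a * chiZ q χ a) *
          ∑ a ∈ BX N, (starRingEnd ℂ) (wZ q b a * chiZ q χ a)) := by ring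
    rw [e5, Finset.sum_mul_sum]
    congr 1
    refine Finset.sum_congr rfl fun a _ => Finset.sum_congr rfl fun b' _ => ?_
    rw [map_mul]
    ring
  have h2 : ((∑ χ ∈ FQs q, ‖(1 / 4 : ℂ) * ∑ a ∈ BX N, wZ q b a * chiZ q χ a‖ ^ 2 : ℝ) : ℂ) =
      (((phiQ q : ℝ) / 16 * ∑ a ∈ BX N, ‖wZ q b a‖ ^ 2 : ℝ) : ℂ) := by
    rw [Complex.ofReal_sum, Finset.sum_congr rfl fun χ _ => h1 χ, ← Finset.mul_sum,
      Finset.sum_comm]
    have h3 : ∀ a ∈ BX N, ∑ χ ∈ FQs q, ∑ b' ∈ BX N, (wZ q b a * (starRingEnd ℂ) (wZ q b b')) *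
        (chiZ q χ a * (starRingEnd ℂ) (chiZ q χ b')) = (phiQ q : ℂ) * ((‖wZ q b a‖ ^ 2 : ℝ) : ℂ) := by
      intro a ha
      rw [Finset.sum_comm]
      have h4 : ∀ b' ∈ BX N, ∑ χ ∈ FQs q, (wZ q b a * (starRingEnd ℂ) (wZ q b b')) *
          (chiZ q χ a * (starRingEnd ℂ) (chiZ q χ b')) =
          (phiQ q : ℂ) / 4 * ∑ j ∈ Finset.range 4,
        (if im1 ^ j * a = b' then I ^ j * (wZ q b a * (starRingEnd ℂ) (wZ q b b')) else 0) := by
        intro b' hb'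
        rw [← Finset.mul_sum]
        exact orth_w ho q N hN b a b' ha hb'
      rw [Finset.sum_congr rfl h4, ← Finset.mul_sum, Finset.sum_comm]
      have h5 : ∀ j ∈ Finset.range 4, ∑ b' ∈ BX N, (if im1 ^ j * a = b' then
          I ^ j * (wZ q b a * (starRingEnd ℂ) (wZ q b b')) else 0) =
          ((‖wZ q b a‖ ^ 2 : ℝ) : ℂ) := by
        intro j _
        have hm : im1 ^ j * a ∈ BX N := by
          rw [mem_BX] at ha ⊢
          rw [(pow_facts q b a j).2]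
          exact ha
        rw [Finset.sum_ite_eq, if_pos hm, (pow_facts q b a j).1, map_mul, map_pow, Complex.conj_I]
        have e6 : I ^ j * (-I) ^ j = 1 := by
          rw [← mul_pow]
          have : I * -I = 1 := by
            rw [mul_neg, Complex.I_mul_I, neg_neg]
          rw [this, one_pow]
        push_cast
        rw [← Complex.mul_conj']
        linear_combination (wZ q b a * (starRingEnd ℂ) (wZ q b a)) * e6
      rw [Finset.sum_congr rfl h5, Finset.sum_const, Finset.card_range, nsmul_eq_mul]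
      push_cast
      ring
    rw [Finset.sum_congr rfl h3, ← Finset.mul_sum]
    push_cast
    ring
  exact_mod_cast h2

theorem group (N : ℕ) (b : ℕ → ℂ) :
    ∑ a ∈ BX N, LamK a ^ 2 * ‖b (nrm a)‖ ^ 2 =
      4 * ∑ n ∈ Finset.Icc 1 N, lamK2 n * ‖b n‖ ^ 2 := by
  classical
  rw [← Finset.sum_fiberwise_of_maps_to (s := BX N) (t := Finset.Icc 1 N) (g := nrm)
    (fun a ha => by rw [Finset.mem_Icc]; exact (mem_BX N a).1 ha), Finset.mul_sum]
  refine Finset.sum_congr rfl fun n hn => ?_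
  rw [Finset.mem_Icc] at hn
  have h1 : (BX N).filter (fun a => nrm a = n) = Pool.Agent.H304R3.HK.M4.T n := by
    ext a
    rw [Finset.mem_filter, mem_BX, mem_T, norm_eq, ← nrm_cast]
    constructor
    · rintro ⟨-, h⟩
      rw [h]
    · intro h
      have h2 : nrm a = n := by exact_mod_cast h
      refine ⟨?_, h2⟩
      rw [h2]
      exact hn
  have h2 : lamK2 n = 1 / 4 * ∑ z ∈ Pool.Agent.H304R3.HK.M4.T n, LamK z ^ 2 := by
    unfold lamK2
    rw [bb_eq]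
    have : (1 / 4 : ℂ) * ∑ z ∈ Pool.Agent.H304R3.HK.M4.T n, ((LamK z : ℝ) : ℂ) ^ 2 =
        ((1 / 4 * ∑ z ∈ Pool.Agent.H304R3.HK.M4.T n, LamK z ^ 2 : ℝ) : ℂ) := by
      push_cast
      ring
    rw [this, Complex.ofReal_re]
  rw [h2, h1]
  have h3 : ∀ a ∈ Pool.Agent.H304R3.HK.M4.T n, LamK a ^ 2 * ‖b (nrm a)‖ ^ 2 =
      LamK a ^ 2 * ‖b n‖ ^ 2 := by
    intro a ha
    rw [← h1, Finset.mem_filter] at ha
    rw [ha.2]
  rw [Finset.sum_congr rfl h3, ← Finset.sum_mul]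
  ring

theorem main (ho : Orth) (q : ZI) (N : ℕ) (hN : 4 * N < nrm q) (b : ℕ → ℂ) :
    ∑ χ ∈ FQs q, ‖(1 / 4 : ℂ) * ∑ a ∈ BX N, wZ q b a * chiZ q χ a‖ ^ 2 ≤
      (phiQ q : ℝ) / 4 * ∑ n ∈ Finset.Icc 1 N, lamK2 n * ‖b n‖ ^ 2 := by
  rw [diag ho q N hN b]
  have h1 : ∑ a ∈ BX N, ‖wZ q b a‖ ^ 2 ≤ ∑ a ∈ BX N, LamK a ^ 2 * ‖b (nrm a)‖ ^ 2 :=
    Finset.sum_le_sum fun a _ => wZ_norm q b a
  rw [group] at h1
  have h2 : (0 : ℝ) ≤ (phiQ q : ℝ) / 16 := by positivity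
  have h3 := mul_le_mul_of_nonneg_left h1 h2
  refine h3.trans (le_of_eq ?_)
  ring

end HE4

end H385
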