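import Pool.Agent.H385R5.HeDefs

/-!
TEAM Q3, task HE5 (helper255): from the full prime sum of the primitive character to the short sum.
-/

open Complex Filter Topology Set MeasureTheory

namespace H385

open Pool.Agent.H304R3.HK (tc HC CS bb LamK psi bH aH LH)

namespace HE5

open Pool.Agent.H304R3.HK Pool.Agent.H304R3.HK.M4

theorem nrm_eq {a : ZI} {n : ℕ} : nrm a = n ↔ a.norm = (n : ℤ) := by
  have h := norm_nn a
  unfold nrm
  omega

theorem norm_val (a : ZI) : a.norm = a.re ^ 2 + a.im ^ 2 := by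
  rw [Zsqrtd.norm_def]; ring

theorem mem_BX {N : ℕ} {a : ZI} : a ∈ BX N ↔ 1 ≤ nrm a ∧ nrm a ≤ N := by
  have h := norm_nn a
  have hv := norm_val a
  unfold BX
  simp only [Finset.mem_image, Finset.mem_filter, Finset.mem_product, Finset.mem_Icc]
  constructor
  · rintro ⟨p, ⟨_, h1, h2⟩, rfl⟩
    unfold nrm
    simp only at hv
    omega
  · rintro ⟨h1, h2⟩
    unfold nrm at h1 h2
    have h3 : a.re ^ 2 + a.im ^ 2 ≤ (N : ℤ) := by omega
    have h4 : 1 ≤ a.re ^ 2 + a.im ^ 2 := by omega
    refine ⟨(a.re, a.im), ⟨⟨⟨?_, ?_⟩, ⟨?_, ?_⟩⟩, h4, h3⟩, by ext <;> rfl⟩ <;>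
      nlinarith [sq_nonneg a.re, sq_nonneg a.im, Int.le_self_sq a.re, Int.le_self_sq a.im,
        Int.le_self_sq (-a.re), Int.le_self_sq (-a.im)]

theorem sum_BX (N : ℕ) (F : ZI → ℂ) :
    (1 / 4 : ℂ) * ∑ a ∈ BX N, F a = ∑ n ∈ Finset.Icc 1 N, bb F n := by
  classical
  rw [← Finset.sum_fiberwise_of_maps_to (s := BX N) (t := Finset.Icc 1 N) (g := nrm)
    (fun a ha => Finset.mem_Icc.2 (mem_BX.1 ha)), Finset.mul_sum]
  apply Finset.sum_congr rfl
  intro n hn
  rw [Finset.mem_Icc] at hn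
  rw [bb_eq]
  congr 1
  apply Finset.sum_congr _ (fun _ _ => rfl)
  ext a
  rw [Finset.mem_filter, mem_BX, mem_T, nrm_eq]
  constructor
  · rintro ⟨_, h⟩; exact h
  · intro h
    have := nrm_eq.2 h
    exact ⟨by omega, h⟩

theorem LamK_nn (a : ZI) : 0 ≤ LamK a := by
  unfold LamK
  split_ifs with h
  · have h1 : ∀ m : ℤ, 0 ≤ Real.log (m : ℝ) := fun m => Real.log_intCast_nonneg m
    exact h1 _
  · exact le_rfl

theorem cop_of {a q : ZI} (h : ¬ IsCoprime a q) (hL : LamK a ≠ 0) :
    ¬ Nat.Coprime (nrm a) (nrm q) := by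
  have h1 : ∃ x : ZI, Prime x ∧ ∃ k : ℕ, 0 < k ∧ Associated (x ^ k) a := by
    by_contra hc
    apply hL
    apply LamK_zero
    intro x hx k hk hxa
    exact hc ⟨x, hx, k, hk, hxa⟩
  obtain ⟨x, hx, k, hk, hxa⟩ := h1
  have h2 : x ∣ q := by
    by_contra h3
    apply h
    have h4 : IsCoprime x q := (hx.irreducible.coprime_iff_not_dvd).2 h3
    have h5 : IsCoprime (x ^ k) q := h4.pow_left
    obtain ⟨u, hu⟩ := hxa
    rw [← hu]
    exact (isCoprime_mul_unit_right_left u.isUnit _ _).2 h5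
  have h6 : nrm x ∣ nrm q := by
    obtain ⟨c, hc⟩ := h2
    refine ⟨nrm c, ?_⟩
    unfold nrm
    rw [hc, Zsqrtd.norm_mul, Int.natAbs_mul]
  have h7 : nrm x ∣ nrm a := by
    have h8 : x ∣ a := (dvd_pow_self x hk.ne').trans hxa.dvd
    obtain ⟨c, hc⟩ := h8
    refine ⟨nrm c, ?_⟩
    unfold nrm
    rw [hc, Zsqrtd.norm_mul, Int.natAbs_mul]
  intro hcop
  have h9 : nrm x = 1 := Nat.eq_one_of_dvd_coprimes hcop h7 h6
  exact hx.not_isUnit (Zsqrtd.norm_eq_one_iff.1 h9)

/-- bound of the coefficients -/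
theorem lam_le (n : ℕ) :
    (1 / 4 : ℝ) * ∑ a ∈ T n, LamK a ≤ 2 * ArithmeticFunction.vonMangoldt n := by
  have h := Pool.Agent.H304R3.HK.lam_one n
  rw [bb_eq] at h
  have h2 : (((1 / 4 : ℝ) * ∑ a ∈ T n, LamK a : ℝ) : ℂ) =
      ((ArithmeticFunction.vonMangoldt n * (1 + ((ZMod.χ₄ (n : ZMod 4) : ℤ) : ℝ)) : ℝ) : ℂ) := by
    rw [← h]
    push_cast
    rfl
  have h3 : (1 / 4 : ℝ) * ∑ a ∈ T n, LamK a =
      ArithmeticFunction.vonMangoldt n * (1 + ((ZMod.χ₄ (n : ZMod 4) : ℤ) : ℝ)) := by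
    exact_mod_cast h2
  rw [h3]
  have h4 : ∀ z : ZMod 4, (ZMod.χ₄ z : ℤ) ≤ 1 := by decide
  have h5 : (((ZMod.χ₄ (n : ZMod 4) : ℤ)) : ℝ) ≤ 1 := by exact_mod_cast h4 _
  have h6 : 0 ≤ ArithmeticFunction.vonMangoldt n := ArithmeticFunction.vonMangoldt_nonneg
  nlinarith

/-- a sum over the elements of norm `n` whose terms are at most `Λ(a) c` -/
theorem bb_le (f : ZI → ℂ) (n : ℕ) (c : ℝ) (hc : 0 ≤ c)
    (hf : ∀ a ∈ T n, ‖f a‖ ≤ LamK a * c) :
    ‖bb f n‖ ≤ 2 * (ArithmeticFunction.vonMangoldt n * c) := by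
  rw [bb_eq, norm_mul]
  have h1 : ‖(1 / 4 : ℂ)‖ = 1 / 4 := by norm_num
  rw [h1]
  have h2 : ‖∑ a ∈ T n, f a‖ ≤ ∑ a ∈ T n, LamK a * c :=
    (norm_sum_le _ _).trans (Finset.sum_le_sum hf)
  rw [← Finset.sum_mul] at h2
  have h3 := mul_le_mul_of_nonneg_right (lam_le n) hc
  nlinarith

theorem main (q d : ZI) (χ : MulChar (RQ q) ℂ) (χ' : ZI →* ℂ)
    (h : HC d χ') (hχ : ∀ a : ZI, IsCoprime a q → χ' a = chiZ q χ a) (N : ℕ) (T' u t : ℝ)
    (hT : 0 ≤ T') :
    ‖∑' n : ℕ, aH χ' n * bn T' u t n -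
      (1 / 4 : ℂ) * ∑ a ∈ BX N, wZ q (bn T' u t) a * chiZ q χ a‖ ≤
      wt T' t * (2 * (Gq (nrm q) u + Tl N u)) := by
  classical
  set b := bn T' u t with hb
  have hpsi : ∀ a : ZI, ‖psi χ' a‖ ≤ 1 := (Pool.Agent.H304R3.HK.uh_psi d χ' h).hb
  -- the coefficient bound
  have haH : ∀ n, ‖aH χ' n * b n‖ ≤ 2 * (ArithmeticFunction.vonMangoldt n * ‖b n‖) := by
    intro n
    have h1 : ‖aH χ' n‖ ≤ 2 * (ArithmeticFunction.vonMangoldt n * 1) := by
      unfold aH
      refine bb_le _ n 1 (by norm_num) ?_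
      intro a _
      rw [norm_mul, Complex.norm_real, Real.norm_of_nonneg (LamK_nn a)]
      exact mul_le_mul_of_nonneg_left (hpsi a) (LamK_nn a)
    rw [norm_mul]
    calc ‖aH χ' n‖ * ‖b n‖ ≤ (2 * (ArithmeticFunction.vonMangoldt n * 1)) * ‖b n‖ :=
          mul_le_mul_of_nonneg_right h1 (norm_nonneg _)
      _ = _ := by ring
  have hsb : Summable (fun n : ℕ => ArithmeticFunction.vonMangoldt n * ‖b n‖) :=
    b_summable T' u t hT
  have hsc : Summable (fun n : ℕ => aH χ' n * b n) :=
    Summable.of_norm_bounded (hsb.mul_left 2) haH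
  -- the short sum as a sum over `n`
  set s : ℕ → ℂ := fun n => if n ∈ Finset.Icc 1 N then
    bb (fun a => wZ q b a * chiZ q χ a) n else 0 with hs
  have hS : (1 / 4 : ℂ) * ∑ a ∈ BX N, wZ q b a * chiZ q χ a = ∑' n, s n := by
    rw [sum_BX, tsum_eq_sum (s := Finset.Icc 1 N)]
    · apply Finset.sum_congr rfl
      intro n hn
      rw [hs]
      simp only
      rw [if_pos hn]
    · intro n hn
      rw [hs]
      simp only
      rw [if_neg hn]
  have hss : Summable s := summable_of_ne_finset_zero (s := Finset.Icc 1 N) (by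
    intro n hn
    rw [hs]
    simp only
    rw [if_neg hn])
  rw [hS, ← hsc.tsum_sub hss]
  -- the pointwise bound of the difference
  set B1 : ℕ → ℝ := fun n => if ¬ Nat.Coprime n (nrm q) then
    ArithmeticFunction.vonMangoldt n * ‖b n‖ else 0 with hB1
  set B2 : ℕ → ℝ := fun n => if N < n then
    ArithmeticFunction.vonMangoldt n * ‖b n‖ else 0 with hB2
  have hpos : ∀ n, 0 ≤ ArithmeticFunction.vonMangoldt n * ‖b n‖ := fun n =>
    mul_nonneg ArithmeticFunction.vonMangoldt_nonneg (norm_nonneg _)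
  have hB1n : ∀ n, 0 ≤ B1 n := by
    intro n; rw [hB1]; simp only; split_ifs
    · exact le_rfl
    · exact hpos n
  have hB2n : ∀ n, 0 ≤ B2 n := by
    intro n; rw [hB2]; simp only; split_ifs
    · exact hpos n
    · exact le_rfl
  have hB1s : Summable B1 := by
    refine Summable.of_nonneg_of_le hB1n (fun n => ?_) hsb
    rw [hB1]; simp only; split_ifs
    · exact hpos n
    · exact le_rfl
  have hB2s : Summable B2 := by
    refine Summable.of_nonneg_of_le hB2n (fun n => ?_) hsb
    rw [hB2]; simp only; split_ifs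
    · exact le_rfl
    · exact hpos n
  have hd : ∀ n, ‖aH χ' n * b n - s n‖ ≤ 2 * (B1 n + B2 n) := by
    intro n
    by_cases hn : n ∈ Finset.Icc 1 N
    · have e1 : s n = bb (fun a => wZ q b a * chiZ q χ a) n := by
        rw [hs]; simp only; rw [if_pos hn]
      have e2 : aH χ' n * b n - s n = bb (fun a => if IsCoprime a q then 0 else
          (LamK a : ℂ) * psi χ' a * b n) n := by
        rw [e1]
        unfold aH
        rw [bb_eq, bb_eq, bb_eq, mul_assoc, ← mul_sub, Finset.sum_mul, ← Finset.sum_sub_distrib]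
        congr 1
        apply Finset.sum_congr rfl
        intro a ha
        have hna : nrm a = n := nrm_eq.2 (mem_T.1 ha)
        unfold wZ
        by_cases hc : IsCoprime a q
        · rw [if_pos hc, if_pos hc, hna]
          have ha0 : a ≠ 0 := by
            rintro rfl
            have h1 : nrm (0 : ZI) = 0 := by simp [nrm]
            rw [h1] at hna
            rw [Finset.mem_Icc] at hn
            omega
          have hp : psi χ' a = χ' a * (tc a / (‖tc a‖ : ℂ)) := by
            show (if a = 0 then 0 else χ' a * (tc a / (‖tc a‖ : ℂ))) = _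
            rw [if_neg ha0]
          rw [hp, hχ a hc]
          ring
        · rw [if_neg hc, if_neg hc]
          ring
      rw [e2]
      by_cases hcn : Nat.Coprime n (nrm q)
      · have h0 : bb (fun a => if IsCoprime a q then 0 else
            (LamK a : ℂ) * psi χ' a * b n) n = 0 := by
          rw [bb_eq, Finset.sum_eq_zero, mul_zero]
          intro a ha
          have hna : nrm a = n := nrm_eq.2 (mem_T.1 ha)
          by_cases hc : IsCoprime a q
          · rw [if_pos hc]
          · rw [if_neg hc]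
            have hL : LamK a = 0 := by
              by_contra hL
              apply cop_of hc hL
              rw [hna]
              exact hcn
            rw [hL]
            simp
        rw [h0, norm_zero]
        have := hB1n n
        have := hB2n n
        positivity
      · have h1 : ‖bb (fun a => if IsCoprime a q then 0 else
            (LamK a : ℂ) * psi χ' a * b n) n‖ ≤
            2 * (ArithmeticFunction.vonMangoldt n * ‖b n‖) := by
          refine bb_le _ n ‖b n‖ (norm_nonneg _) ?_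
          intro a _
          split_ifs
          · rw [norm_zero]
            exact mul_nonneg (LamK_nn a) (norm_nonneg _)
          · rw [norm_mul, norm_mul, Complex.norm_real, Real.norm_of_nonneg (LamK_nn a)]
            refine mul_le_mul_of_nonneg_right ?_ (norm_nonneg _)
            calc LamK a * ‖psi χ' a‖ ≤ LamK a * 1 :=
                  mul_le_mul_of_nonneg_left (hpsi a) (LamK_nn a)
              _ = LamK a := mul_one _
        have h2 : B1 n = ArithmeticFunction.vonMangoldt n * ‖b n‖ := by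
          rw [hB1]; simp only; rw [if_pos hcn]
        have := hB2n n
        linarith
    · have e1 : s n = 0 := by
        rw [hs]; simp only; rw [if_neg hn]
      rw [e1, sub_zero]
      by_cases hn0 : n = 0
      · subst hn0
        have h1 := haH 0
        have h2 : ArithmeticFunction.vonMangoldt 0 = 0 := by simp
        rw [h2, zero_mul, mul_zero] at h1
        have := hB1n 0
        have := hB2n 0
        linarith
      · have hNn : N < n := by
          rw [Finset.mem_Icc] at hn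
          omega
        have h2 : B2 n = ArithmeticFunction.vonMangoldt n * ‖b n‖ := by
          rw [hB2]; simp only; rw [if_pos hNn]
        have h1 := haH n
        have := hB1n n
        linarith
  have hfin : ‖∑' n, (aH χ' n * b n - s n)‖ ≤ ∑' n, 2 * (B1 n + B2 n) :=
    tsum_of_norm_bounded ((hB1s.add hB2s).mul_left 2).hasSum hd
  refine hfin.trans ?_
  rw [tsum_mul_left, hB1s.tsum_add hB2s]
  have k1 : ∑' n, B1 n ≤ wt T' t * Gq (nrm q) u := by
    have h1 := b_tsum_le T' u t hT (fun n => ¬ Nat.Coprime n (nrm q))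
    have h2 : Gq (nrm q) u = ∑' n : ℕ, (if ¬ Nat.Coprime n (nrm q) then
        ArithmeticFunction.vonMangoldt n / Real.sqrt n *
          Real.exp (-(u - Real.log n) ^ 2 / 4) else 0) := by
      unfold Gq
      simp only [ite_not]
    rw [h2]
    exact h1
  have k2 : ∑' n, B2 n ≤ wt T' t * Tl N u := b_tsum_le T' u t hT (fun n => N < n)
  linarith

end HE5

/-- HE5: from the full prime sum of the primitive character to the short sum -/
theorem he_point (q d : ZI) (hq : q ≠ 0) (χ : MulChar (RQ q) ℂ) (χ' : ZI →* ℂ)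
    (h : HC d χ') (hχ : ∀ a : ZI, IsCoprime a q → χ' a = chiZ q χ a) (N : ℕ) (T u t : ℝ)
    (hT : 0 ≤ T) (hu : 0 ≤ u) :
    ‖∑' n : ℕ, aH χ' n * bn T u t n - (1 / 4 : ℂ) * ∑ a ∈ BX N, wZ q (bn T u t) a * chiZ q χ a‖ ≤
      wt T t * (2 * (Gq (nrm q) u + Tl N u)) :=
  HE5.main q d χ χ' h hχ N T u t hT

end H385
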