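import Pool.Agent.H385R5.HeDefs

/-!
TEAM Q3, task HE6 (helper379): the second moment of the von Mangoldt function of `ℤ[i]` over the
elements of a given norm.
-/

open Complex Filter Topology Set MeasureTheory

namespace H385

open Pool.Agent.H304R3.HK (tc HC CS bb LamK psi bH aH LH)

namespace HE6

open Pool.Agent.H304R3.HK Pool.Agent.H304R3.HK.M4

/-- values of `LamK` on elements of norm `n` -/
theorem lamK_val {n : ℕ} {z : GaussianInt} (hz : z.norm = n) :
    0 ≤ LamK z ∧ LamK z ≤ 2 * ArithmeticFunction.vonMangoldt n ∧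
      (n.Prime → LamK z ^ 2 = ArithmeticFunction.vonMangoldt n * LamK z) := by
  have hv0 : 0 ≤ ArithmeticFunction.vonMangoldt n := ArithmeticFunction.vonMangoldt_nonneg
  by_cases H : ∃ y : GaussianInt, Prime y ∧ ∃ k : ℕ, 0 < k ∧ Associated (y ^ k) z
  · obtain ⟨x, hx, k, hk, h⟩ := H
    rw [LamK_eq hx hk h]
    have hn := norm_assoc h
    rw [norm_pow', hz] at hn
    obtain ⟨p, hp, hxp⟩ := norm_prime hx
    have hlp : 0 ≤ Real.log (p : ℝ) := Real.log_natCast_nonneg p
    rcases hxp with hxp | hxp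
    · rw [hxp] at hn ⊢
      have hn' : n = p ^ k := by exact_mod_cast hn.symm
      have hv : ArithmeticFunction.vonMangoldt n = Real.log p := by rw [hn', vM_pow p hp k hk]
      rw [hv]
      push_cast
      refine ⟨hlp, by linarith, fun _ => by ring⟩
    · rw [hxp] at hn ⊢
      have hn' : n = p ^ (2 * k) := by
        have : (p : ℤ) ^ (2 * k) = n := by rw [pow_mul]; exact hn
        exact_mod_cast this.symm
      have hv : ArithmeticFunction.vonMangoldt n = Real.log p := by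
        rw [hn', vM_pow p hp (2 * k) (by omega)]
      rw [hv]
      push_cast
      rw [Real.log_pow]
      push_cast
      refine ⟨by linarith, le_refl _, fun hpr => ?_⟩
      exfalso
      rw [hn'] at hpr
      exact Nat.Prime.not_prime_pow (by omega) hpr
  · rw [LamK_zero (fun x hx k hk h => H ⟨x, hx, k, hk, h⟩)]
    refine ⟨le_refl _, by linarith, fun _ => by ring⟩

theorem bb_real (f : GaussianInt → ℝ) (n : ℕ) :
    bb (fun a => ((f a : ℝ) : ℂ)) n = ((1 / 4 * ∑ z ∈ T n, f z : ℝ) : ℂ) := by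
  rw [bb_eq]
  push_cast
  rfl

theorem lamK2_eq (n : ℕ) : lamK2 n = 1 / 4 * ∑ z ∈ T n, LamK z ^ 2 := by
  unfold lamK2
  have h : (fun a => ((LamK a : ℝ) : ℂ) ^ 2) = fun a => ((LamK a ^ 2 : ℝ) : ℂ) := by
    funext a; push_cast; rfl
  rw [h, bb_real, Complex.ofReal_re]

theorem lam_one_real (n : ℕ) : 1 / 4 * ∑ z ∈ T n, LamK z =
    ArithmeticFunction.vonMangoldt n * (1 + ((ZMod.χ₄ (n : ZMod 4) : ℤ) : ℝ)) := by
  have h := lam_one n
  rw [bb_real] at h
  exact_mod_cast h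

end HE6

open HE6 in
/-- HE6: `Λ_K²` on norms -/
theorem lamK2_bound (n : ℕ) : 0 ≤ lamK2 n ∧
    lamK2 n ≤ 4 * ArithmeticFunction.vonMangoldt n ^ 2 ∧
    (n.Prime → lamK2 n = ArithmeticFunction.vonMangoldt n ^ 2 *
      (1 + ((ZMod.χ₄ (n : ZMod 4) : ℤ) : ℝ))) := by
  have hv0 : 0 ≤ ArithmeticFunction.vonMangoldt n := ArithmeticFunction.vonMangoldt_nonneg
  rw [lamK2_eq]
  refine ⟨?_, ?_, fun hp => ?_⟩
  · positivity
  · have h1 : ∑ z ∈ Pool.Agent.H304R3.HK.M4.T n, LamK z ^ 2 ≤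
        ∑ z ∈ Pool.Agent.H304R3.HK.M4.T n, 2 * ArithmeticFunction.vonMangoldt n * LamK z := by
      refine Finset.sum_le_sum fun z hz => ?_
      have := lamK_val (Pool.Agent.H304R3.HK.M4.mem_T.1 hz)
      rw [pow_two]
      exact mul_le_mul_of_nonneg_right this.2.1 this.1
    rw [← Finset.mul_sum] at h1
    have h2 := lam_one_real n
    have h3 : ((ZMod.χ₄ (n : ZMod 4) : ℤ) : ℝ) ≤ 1 := by
      have : ∀ x : ZMod 4, (ZMod.χ₄ x : ℤ) ≤ 1 := by decide
      exact_mod_cast this _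
    have h4 : 1 / 4 * ∑ z ∈ Pool.Agent.H304R3.HK.M4.T n, LamK z ≤
        2 * ArithmeticFunction.vonMangoldt n := by
      rw [h2]; nlinarith
    nlinarith
  · have h1 : ∑ z ∈ Pool.Agent.H304R3.HK.M4.T n, LamK z ^ 2 =
        ArithmeticFunction.vonMangoldt n * ∑ z ∈ Pool.Agent.H304R3.HK.M4.T n, LamK z := by
      rw [Finset.mul_sum]
      refine Finset.sum_congr rfl fun z hz => ?_
      exact (lamK_val (Pool.Agent.H304R3.HK.M4.mem_T.1 hz)).2.2 hp
    have h2 := lam_one_real n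
    rw [h1]
    calc 1 / 4 * (ArithmeticFunction.vonMangoldt n * ∑ z ∈ Pool.Agent.H304R3.HK.M4.T n, LamK z)
        = ArithmeticFunction.vonMangoldt n *
          (1 / 4 * ∑ z ∈ Pool.Agent.H304R3.HK.M4.T n, LamK z) := by ring
      _ = _ := by rw [h2]; ring

end H385
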