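import Pool.Agent.H385R5.HeDefs
import Pool.Agent.H385R5.HE6
import Pool.Agent.H304R2.EC.RS

/-!
TEAM Q3 (helper385), task HE7 (helper61): Selberg type asymptotics for `cK`.
-/

open Complex Filter Topology Set MeasureTheory

namespace H385

open Pool.Agent.H304R3.HK (tc HC CS bb LamK psi bH aH LH)
open Pool.Agent.H304R2.EC (psr psr_abs mert_psr)

/-- first form: `∑ Λ(n) f(n)/n = log N + O(1)` -/
lemma he7_one (f : ℕ → ℝ) (hf0 : ∀ n, 0 ≤ f n) (hf4 : ∀ n, f n ≤ 4)
    (hfp : ∀ n : ℕ, n.Prime → f n = 1 + psr n) : ∃ C : ℝ, 0 ≤ C ∧ ∀ N : ℕ, 1 ≤ N →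
    |∑ n ∈ Finset.Icc 1 N, ArithmeticFunction.vonMangoldt n * f n / n - Real.log N| ≤ C := by
  obtain ⟨C1, h1⟩ := mert_psr
  set S : ℝ := ∑' n, Pool.Agent.H304R2.EC.npr n with hS
  have hS0 : 0 ≤ S := tsum_nonneg Pool.Agent.H304R2.EC.npr_nonneg
  have hC10 : 0 ≤ C1 := (abs_nonneg _).trans (h1 0)
  refine ⟨C1 + 8 * S + 6, by positivity, ?_⟩
  intro N hN
  have hdiff : |∑ n ∈ Finset.Icc 1 N, (ArithmeticFunction.vonMangoldt n * f n / n -
      (ArithmeticFunction.vonMangoldt n / n + ArithmeticFunction.vonMangoldt n * psr n / n))| ≤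
        8 * S := by
    have hb : ∀ n ∈ Finset.Icc 1 N, |ArithmeticFunction.vonMangoldt n * f n / n -
      (ArithmeticFunction.vonMangoldt n / n + ArithmeticFunction.vonMangoldt n * psr n / n)| ≤
        8 * Pool.Agent.H304R2.EC.npr n := by
      intro n hn
      have hn1 : 1 ≤ n := (Finset.mem_Icc.mp hn).1
      have hn0 : (0 : ℝ) < n := by exact_mod_cast hn1
      have hrew : ArithmeticFunction.vonMangoldt n * f n / n -
          (ArithmeticFunction.vonMangoldt n / n + ArithmeticFunction.vonMangoldt n * psr n / n) =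
          ArithmeticFunction.vonMangoldt n / n * (f n - 1 - psr n) := by ring
      rw [hrew]
      have hΛ : 0 ≤ ArithmeticFunction.vonMangoldt n := ArithmeticFunction.vonMangoldt_nonneg
      by_cases hp : n.Prime
      · have h4 : f n - 1 - psr n = 0 := by rw [hfp n hp]; ring
        rw [h4, mul_zero, abs_zero]
        have := Pool.Agent.H304R2.EC.npr_nonneg n
        linarith
      · have h3 : Pool.Agent.H304R2.EC.npr n = ArithmeticFunction.vonMangoldt n / n := by
          unfold Pool.Agent.H304R2.EC.npr; rw [if_neg hp]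
        rw [h3, abs_mul, abs_of_nonneg (div_nonneg hΛ hn0.le), mul_comm]
        apply mul_le_mul_of_nonneg_right _ (div_nonneg hΛ hn0.le)
        have e2 := abs_le.mp (psr_abs n)
        have e4 := hf0 n
        have e5 := hf4 n
        rw [abs_le]
        constructor <;> linarith [e2.1, e2.2]
    calc _ ≤ ∑ n ∈ Finset.Icc 1 N, |ArithmeticFunction.vonMangoldt n * f n / n -
      (ArithmeticFunction.vonMangoldt n / n + ArithmeticFunction.vonMangoldt n * psr n / n)| :=
          Finset.abs_sum_le_sum_abs _ _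
      _ ≤ ∑ n ∈ Finset.Icc 1 N, 8 * Pool.Agent.H304R2.EC.npr n := Finset.sum_le_sum hb
      _ = 8 * ∑ n ∈ Finset.Icc 1 N, Pool.Agent.H304R2.EC.npr n := by rw [← Finset.mul_sum]
      _ ≤ 8 * S := by
          have e1 : ∑ n ∈ Finset.Icc 1 N, Pool.Agent.H304R2.EC.npr n ≤ S :=
            Pool.Agent.H304R2.EC.npr_summable.sum_le_tsum _ (fun n _ => Pool.Agent.H304R2.EC.npr_nonneg n)
          linarith
  rw [Finset.sum_sub_distrib, Finset.sum_add_distrib] at hdiff
  have hM1 := H370.nt_mertens_lower N hN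
  have hM2 := H370.nt_mertens_upper N hN
  have h1N := h1 N
  rw [abs_le] at hdiff h1N ⊢
  constructor <;> linarith [hdiff.1, hdiff.2, h1N.1, h1N.2]

/-- the weighted sum for integers -/
lemma he7_nat (f : ℕ → ℝ) (hf0 : ∀ n, 0 ≤ f n) (hf4 : ∀ n, f n ≤ 4)
    (hfp : ∀ n : ℕ, n.Prime → f n = 1 + psr n) : ∃ C : ℝ, 0 ≤ C ∧ ∀ N : ℕ, 1 ≤ N →
    |∑ n ∈ Finset.Icc 1 N, (ArithmeticFunction.vonMangoldt n) ^ 2 * f n / n -
      (Real.log N) ^ 2 / 2| ≤ C * Real.log N := by
  obtain ⟨C, hC, h⟩ := he7_one f hf0 hf4 hfp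
  set S : ℝ := ∑' n, Pool.Agent.H304R2.EC.npr n with hS
  have hS0 : 0 ≤ S := tsum_nonneg Pool.Agent.H304R2.EC.npr_nonneg
  refine ⟨(1 + C) + C + 4 * S, by positivity, ?_⟩
  intro N hN
  have hlog : 0 ≤ Real.log N := Real.log_natCast_nonneg N
  have h1 := H385.mert_abel (fun n => ArithmeticFunction.vonMangoldt n * f n / n) C 1 hC
    zero_le_one h (fun s => s) continuous_id (fun x y _ _ => by rw [one_mul]) N hN
  rw [integral_id] at h1
  have h2 : |(∑ n ∈ Finset.Icc 1 N, ArithmeticFunction.vonMangoldt n * f n / n - Real.log N) *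
      Real.log N| ≤ C * Real.log N := by
    rw [abs_mul, abs_of_nonneg hlog]
    exact mul_le_mul_of_nonneg_right (h N hN) hlog
  have h3 : |∑ n ∈ Finset.Icc 1 N, (ArithmeticFunction.vonMangoldt n) ^ 2 * f n / n -
      ∑ n ∈ Finset.Icc 1 N, ArithmeticFunction.vonMangoldt n * f n / n * Real.log n| ≤
      4 * S * Real.log N := by
    rw [← Finset.sum_sub_distrib]
    calc _ ≤ ∑ n ∈ Finset.Icc 1 N, |(ArithmeticFunction.vonMangoldt n) ^ 2 * f n / n -
          ArithmeticFunction.vonMangoldt n * f n / n * Real.log n| :=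
          Finset.abs_sum_le_sum_abs _ _
      _ ≤ ∑ n ∈ Finset.Icc 1 N, 4 * Real.log N * Pool.Agent.H304R2.EC.npr n := by
          apply Finset.sum_le_sum
          intro n hn
          have hn1 : 1 ≤ n := (Finset.mem_Icc.mp hn).1
          have hnN : n ≤ N := (Finset.mem_Icc.mp hn).2
          have hn0 : (0 : ℝ) < n := by exact_mod_cast hn1
          have hΛ : 0 ≤ ArithmeticFunction.vonMangoldt n := ArithmeticFunction.vonMangoldt_nonneg
          have hΛ2 : ArithmeticFunction.vonMangoldt n ≤ Real.log n :=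
            ArithmeticFunction.vonMangoldt_le_log
          have hlN : Real.log n ≤ Real.log N := Real.log_le_log hn0 (by exact_mod_cast hnN)
          have hrew : (ArithmeticFunction.vonMangoldt n) ^ 2 * f n / n -
              ArithmeticFunction.vonMangoldt n * f n / n * Real.log n =
              -(ArithmeticFunction.vonMangoldt n / n * (f n *
                (Real.log n - ArithmeticFunction.vonMangoldt n))) := by ring
          rw [hrew, abs_neg]
          by_cases hp : n.Prime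
          · rw [ArithmeticFunction.vonMangoldt_apply_prime hp, sub_self, mul_zero, mul_zero,
              abs_zero]
            have := Pool.Agent.H304R2.EC.npr_nonneg n
            positivity
          · have e3 : Pool.Agent.H304R2.EC.npr n = ArithmeticFunction.vonMangoldt n / n := by
              unfold Pool.Agent.H304R2.EC.npr; rw [if_neg hp]
            rw [e3, abs_of_nonneg (mul_nonneg (div_nonneg hΛ hn0.le)
              (mul_nonneg (hf0 n) (by linarith))), mul_comm]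
            apply mul_le_mul_of_nonneg_right _ (div_nonneg hΛ hn0.le)
            apply mul_le_mul (hf4 n) (by linarith) (by linarith) (by norm_num)
      _ = 4 * Real.log N * ∑ n ∈ Finset.Icc 1 N, Pool.Agent.H304R2.EC.npr n := by rw [Finset.mul_sum]
      _ ≤ 4 * Real.log N * S := by
          apply mul_le_mul_of_nonneg_left _ (by positivity)
          exact Pool.Agent.H304R2.EC.npr_summable.sum_le_tsum _ (fun n _ => Pool.Agent.H304R2.EC.npr_nonneg n)
      _ = 4 * S * Real.log N := by ring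
  rw [abs_le] at h1 h2 h3 ⊢
  constructor <;> nlinarith [h1.1, h1.2, h2.1, h2.2, h3.1, h3.2]

lemma he7_real (f : ℕ → ℝ) (hf0 : ∀ n, 0 ≤ f n) (hf4 : ∀ n, f n ≤ 4)
    (hfp : ∀ n : ℕ, n.Prime → f n = 1 + psr n) : ∃ C : ℝ, 0 ≤ C ∧ ∀ x : ℝ, 1 ≤ x →
    |∑ n ∈ Finset.Icc 1 ⌊x⌋₊, (ArithmeticFunction.vonMangoldt n) ^ 2 * f n / n -
      (Real.log x) ^ 2 / 2| ≤ C * (1 + Real.log x) := by
  obtain ⟨C, hC, h⟩ := he7_nat f hf0 hf4 hfp
  refine ⟨C + 1, by positivity, fun x hx => ?_⟩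
  have hN : 1 ≤ ⌊x⌋₊ := (Nat.one_le_floor_iff x).2 hx
  have h1 := h ⌊x⌋₊ hN
  set N := ⌊x⌋₊ with hNdef
  have hN0 : (0 : ℝ) < N := by exact_mod_cast hN
  have hNx : (N : ℝ) ≤ x := Nat.floor_le (by linarith)
  have hxN : x < N + 1 := Nat.lt_floor_add_one x
  have hlogN : 0 ≤ Real.log N := Real.log_natCast_nonneg N
  have hl1 : Real.log N ≤ Real.log x := Real.log_le_log hN0 hNx
  have hl2 : Real.log x - Real.log N ≤ 1 := by
    have h2 := (H385.mert_log_diff N hN).2
    have h3 : Real.log x ≤ Real.log ((N + 1 : ℕ) : ℝ) := by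
      apply Real.log_le_log (by linarith)
      push_cast
      exact hxN.le
    linarith
  have h4 : |(Real.log N) ^ 2 / 2 - (Real.log x) ^ 2 / 2| ≤ Real.log x := by
    rw [abs_sub_comm, abs_of_nonneg (by nlinarith)]
    nlinarith
  have h5 : C * Real.log N ≤ C * (1 + Real.log x) := mul_le_mul_of_nonneg_left (by linarith) hC
  calc _ = |(∑ n ∈ Finset.Icc 1 N, (ArithmeticFunction.vonMangoldt n) ^ 2 * f n / n -
        (Real.log N) ^ 2 / 2) + ((Real.log N) ^ 2 / 2 - (Real.log x) ^ 2 / 2)| := by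
        congr 1; ring
    _ ≤ _ := abs_add_le _ _
    _ ≤ (C + 1) * (1 + Real.log x) := by linarith

/-- HE7 from HE6 -/
theorem selb_cK_of (H6 : ∀ n : ℕ, 0 ≤ lamK2 n ∧
    lamK2 n ≤ 4 * ArithmeticFunction.vonMangoldt n ^ 2 ∧
    (n.Prime → lamK2 n = ArithmeticFunction.vonMangoldt n ^ 2 *
      (1 + ((ZMod.χ₄ (n : ZMod 4) : ℤ) : ℝ)))) :
    ∃ C : ℝ, 0 ≤ C ∧ Selb cK C ∧ (∀ n, ‖cK n‖ ≤ 2) ∧
    ∀ n, lamK2 n = ArithmeticFunction.vonMangoldt n ^ 2 * ‖cK n‖ ^ 2 := by
  have hΛ : ∀ n : ℕ, 0 ≤ ArithmeticFunction.vonMangoldt n :=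
    fun n => ArithmeticFunction.vonMangoldt_nonneg
  have hnorm : ∀ n : ℕ, ‖cK n‖ = Real.sqrt (lamK2 n) / ArithmeticFunction.vonMangoldt n := by
    intro n
    unfold cK
    rw [Complex.norm_real, Real.norm_of_nonneg]
    exact div_nonneg (Real.sqrt_nonneg _) (hΛ n)
  have hsq : ∀ n : ℕ, ‖cK n‖ ^ 2 = lamK2 n / ArithmeticFunction.vonMangoldt n ^ 2 := by
    intro n
    rw [hnorm, div_pow, Real.sq_sqrt (H6 n).1]
  have h2 : ∀ n : ℕ, ‖cK n‖ ^ 2 ≤ 4 := by
    intro n
    rw [hsq]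
    rcases (hΛ n).eq_or_lt with h | h
    · rw [← h]; norm_num
    · rw [div_le_iff₀ (by positivity)]
      exact (H6 n).2.1
  have hid : ∀ n : ℕ, lamK2 n = ArithmeticFunction.vonMangoldt n ^ 2 * ‖cK n‖ ^ 2 := by
    intro n
    rw [hsq]
    rcases (hΛ n).eq_or_lt with h | h
    · have h3 := (H6 n).1
      have h4 := (H6 n).2.1
      rw [← h] at h4 ⊢
      simp at h4 ⊢
      linarith
    · field_simp
  have hp : ∀ n : ℕ, n.Prime → ‖cK n‖ ^ 2 = 1 + psr n := by
    intro n hn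
    rw [hsq, (H6 n).2.2 hn]
    have hpos : 0 < ArithmeticFunction.vonMangoldt n := by
      rw [ArithmeticFunction.vonMangoldt_apply_prime hn]
      exact Real.log_pos (by exact_mod_cast hn.one_lt)
    rw [mul_comm, mul_div_assoc, div_self (by positivity), mul_one]
    rfl
  obtain ⟨C, hC, h⟩ := he7_real (fun n => ‖cK n‖ ^ 2) (fun n => by positivity) h2 hp
  refine ⟨C, hC, ?_, ?_, hid⟩
  · intro x hx
    exact h x hx
  · intro n
    exact abs_le_of_sq_le_sq' (by nlinarith [h2 n]) (by norm_num) |>.2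

/-- HE7 -/
theorem selb_cK : ∃ C : ℝ, 0 ≤ C ∧ Selb cK C ∧ (∀ n, ‖cK n‖ ≤ 2) ∧
    ∀ n, lamK2 n = ArithmeticFunction.vonMangoldt n ^ 2 * ‖cK n‖ ^ 2 :=
  selb_cK_of lamK2_bound

end H385
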