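import Pool.Agent.H385R5.HE8a
import Pool.Agent.H385R5.HE123
import Pool.Agent.H385R5.HE4
import Pool.Agent.H385R5.HE5
import Pool.Agent.H385R5.HE7

/-!
TEAM Q3, project HE: mean square over the characters modulo `q`.
-/

open Complex Filter Topology Set MeasureTheory

set_option maxHeartbeats 4000000

namespace H385

open Pool.Agent.H304R3.HK (tc HC CS bb LamK psi bH aH LH)

/-- HE4 -/
theorem fq_ms (q : ZI) (N : ℕ) (hN : 4 * N < nrm q) (b : ℕ → ℂ) :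
    ∑ χ ∈ FQs q, ‖(1 / 4 : ℂ) * ∑ a ∈ BX N, wZ q b a * chiZ q χ a‖ ^ 2 ≤
      (phiQ q : ℝ) / 4 * ∑ n ∈ Finset.Icc 1 N, lamK2 n * ‖b n‖ ^ 2 :=
  HE4.main (fun q hq a b ha hb => fq_orth q hq a b ha hb) q N hN b

/-- pointwise bound -/
theorem he_pt (δ : ℝ) (hδ : 0 < δ) (q : ZI) (hq : q ≠ 0) (hq4 : 4 < nrm q)
    (cd : MulChar (RQ q) ℂ → ZI) (pr : MulChar (RQ q) ℂ → (ZI →* ℂ))
    (hpr : ∀ χ ∈ FQs q, HC (cd χ) (pr χ) ∧ ∀ a : ZI, IsCoprime a q → pr χ a = chiZ q χ a)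
    (N : ℕ) (hNq : 4 * N < nrm q) (T u t : ℝ) (hT : 0 ≤ T) (hu : 0 ≤ u)
    (hN : Tl N u ≤ 1) :
    ∑ χ ∈ FQs q, (1 / ((FQs q).card : ℝ)) * ‖∑' n : ℕ, aH (pr χ) n * bn T u t n‖ ^ 2 ≤
      (1 + δ) * (∑ n ∈ Finset.Icc 1 N, lamK2 n * ‖bn T u t n‖ ^ 2) +
      (1 + 1 / δ) * (wt T t ^ 2 * (4 * (Gq (nrm q) u + 1) ^ 2)) := by
  classical
  obtain ⟨-, hφ, -⟩ := fq_finite q hq
  have hφ0 : (0 : ℝ) < phiQ q := by exact_mod_cast hφ
  have hcard := fq_card q hq4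
  have hc0 : (0 : ℝ) < (FQs q).card := by rw [hcard]; positivity
  have hw := wt_nonneg T t hT
  have hG := Gq_nonneg (nrm q) u
  have hpt : ∀ χ ∈ FQs q, ‖∑' n : ℕ, aH (pr χ) n * bn T u t n‖ ^ 2 ≤
      (1 + δ) * ‖(1 / 4 : ℂ) * ∑ a ∈ BX N, wZ q (bn T u t) a * chiZ q χ a‖ ^ 2 +
      (1 + 1 / δ) * (wt T t ^ 2 * (4 * (Gq (nrm q) u + 1) ^ 2)) := by
    intro χ hχ
    obtain ⟨p1, p2⟩ := hpr χ hχ
    have h1 := he_point q (cd χ) hq χ (pr χ) p1 p2 N T u t hT hu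
    set S := (1 / 4 : ℂ) * ∑ a ∈ BX N, wZ q (bn T u t) a * chiZ q χ a with hS
    set R := ∑' n : ℕ, aH (pr χ) n * bn T u t n with hR
    have h2 : R = S + (R - S) := by ring
    have h3 : ‖R - S‖ ≤ wt T t * (2 * (Gq (nrm q) u + 1)) := by
      refine h1.trans ?_
      refine mul_le_mul_of_nonneg_left ?_ hw
      linarith
    have h4 : ‖R - S‖ ^ 2 ≤ wt T t ^ 2 * (4 * (Gq (nrm q) u + 1) ^ 2) := by
      have := pow_le_pow_left₀ (norm_nonneg _) h3 2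
      refine this.trans (le_of_eq ?_)
      ring
    rw [h2]
    refine (FamLS.sq_add_le S (R - S) δ hδ).trans ?_
    have h5 : 0 ≤ 1 + 1 / δ := by positivity
    have h6 := mul_le_mul_of_nonneg_left h4 h5
    linarith
  have hms := fq_ms q N hNq (bn T u t)
  calc _ ≤ ∑ χ ∈ FQs q, (1 / ((FQs q).card : ℝ)) * ((1 + δ) *
        ‖(1 / 4 : ℂ) * ∑ a ∈ BX N, wZ q (bn T u t) a * chiZ q χ a‖ ^ 2 +
      (1 + 1 / δ) * (wt T t ^ 2 * (4 * (Gq (nrm q) u + 1) ^ 2))) :=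
        Finset.sum_le_sum fun χ hχ => mul_le_mul_of_nonneg_left (hpt χ hχ) (by positivity)
    _ = (1 + δ) * ((1 / ((FQs q).card : ℝ)) * ∑ χ ∈ FQs q,
        ‖(1 / 4 : ℂ) * ∑ a ∈ BX N, wZ q (bn T u t) a * chiZ q χ a‖ ^ 2) +
      (1 + 1 / δ) * (wt T t ^ 2 * (4 * (Gq (nrm q) u + 1) ^ 2)) := by
        simp only [mul_add, Finset.sum_add_distrib, Finset.sum_const, nsmul_eq_mul,
          ← Finset.mul_sum]
        field_simp
    _ ≤ _ := by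
        refine add_le_add (mul_le_mul_of_nonneg_left ?_ (by positivity)) le_rfl
        calc (1 / ((FQs q).card : ℝ)) * ∑ χ ∈ FQs q,
            ‖(1 / 4 : ℂ) * ∑ a ∈ BX N, wZ q (bn T u t) a * chiZ q χ a‖ ^ 2 ≤
            (1 / ((FQs q).card : ℝ)) * ((phiQ q : ℝ) / 4 *
              ∑ n ∈ Finset.Icc 1 N, lamK2 n * ‖bn T u t n‖ ^ 2) :=
              mul_le_mul_of_nonneg_left hms (by positivity)
          _ = _ := by rw [hcard]; field_simp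

/-- mean square -/
theorem he_int : ∃ C : ℝ, 0 < C ∧ ∀ (δ : ℝ) (q : ZI) (cd : MulChar (RQ q) ℂ → ZI)
    (pr : MulChar (RQ q) ℂ → (ZI →* ℂ)) (N : ℕ) (T κ u : ℝ), 0 < δ → q ≠ 0 → 4 < nrm q →
    (∀ χ ∈ FQs q, HC (cd χ) (pr χ) ∧ ∀ a : ZI, IsCoprime a q → pr χ a = chiZ q χ a) →
    4 * N < nrm q → 1 ≤ κ → 1 ≤ T → T ≤ Real.exp (κ ^ 2) → 0 ≤ u → Tl N u ≤ 1 →
    ∫ t : ℝ, ∑ χ ∈ FQs q, (1 / ((FQs q).card : ℝ)) *
      ‖∑' n : ℕ, aH (pr χ) n * ((Real.sqrt n : ℂ)⁻¹ * bt T u t (Real.log n))‖ ^ 2 ≤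
      YH cK δ C (nrm q) T κ u := by
  obtain ⟨C0, hC0, hS, hcK, hlam⟩ := selb_cK
  obtain ⟨C1, hC1, h1⟩ := btc_sum_int cK C0 hS
  obtain ⟨C2, hC2, h2⟩ := wt_sq_int
  refine ⟨C1 + C2, by positivity, ?_⟩
  intro δ q cd pr N T κ u hδ hq hq4 hpr hNq hκ hT hTκ hu hN
  have hT0 : 0 ≤ T := by linarith
  obtain ⟨a1, a2⟩ := h1 T κ u N hκ hT hTκ hu
  obtain ⟨b1, b2⟩ := h2 T hT0
  have e : (fun t : ℝ => ∑ n ∈ Finset.Icc 1 N, lamK2 n * ‖bn T u t n‖ ^ 2) =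
      fun t => ∑ n ∈ Finset.Icc 1 N, (ArithmeticFunction.vonMangoldt n) ^ 2 *
        ‖cK n * ((Real.sqrt n : ℂ)⁻¹ * bt T u t (Real.log n))‖ ^ 2 := by
    funext t
    refine Finset.sum_congr rfl (fun n _ => ?_)
    rw [hlam n, norm_mul (cK n), mul_pow]
    unfold bn
    ring
  have a1' : Integrable (fun t : ℝ => ∑ n ∈ Finset.Icc 1 N, lamK2 n * ‖bn T u t n‖ ^ 2) := by
    rw [e]; exact a1
  calc _ ≤ ∫ t : ℝ, ((1 + δ) * (∑ n ∈ Finset.Icc 1 N, lamK2 n * ‖bn T u t n‖ ^ 2) +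
      (1 + 1 / δ) * (wt T t ^ 2 * (4 * (Gq (nrm q) u + 1) ^ 2))) := by
        refine integral_mono_of_nonneg ?_ ?_ ?_
        · exact Filter.Eventually.of_forall (fun t => Finset.sum_nonneg fun χ _ => by positivity)
        · exact (a1'.const_mul _).add ((b1.mul_const _).const_mul _)
        · exact Filter.Eventually.of_forall
            (fun t => he_pt δ hδ q hq hq4 cd pr hpr N hNq T u t hT0 hu hN)
    _ = (1 + δ) * (∫ t : ℝ, ∑ n ∈ Finset.Icc 1 N, lamK2 n * ‖bn T u t n‖ ^ 2) +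
      (1 + 1 / δ) * ((∫ t : ℝ, wt T t ^ 2) * (4 * (Gq (nrm q) u + 1) ^ 2)) := by
        rw [integral_add (a1'.const_mul _) ((b1.mul_const _).const_mul _),
          integral_const_mul, integral_const_mul, integral_mul_const]
    _ ≤ (1 + δ) * (T / (2 * Real.pi) * SW cK u + C1 * κ * (u + 1)) +
        (1 + 1 / δ) * ((T + C2) * (4 * (Gq (nrm q) u + 1) ^ 2)) := by
        refine add_le_add ?_ ?_
        · refine mul_le_mul_of_nonneg_left ?_ (by positivity)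
          rw [e]
          exact a2
        · refine mul_le_mul_of_nonneg_left ?_ (by positivity)
          exact mul_le_mul_of_nonneg_right b2 (by positivity)
    _ ≤ _ := by
        unfold YH
        have e1 : C1 * κ * (u + 1) ≤ (C1 + C2) * κ * (u + 1) := by gcongr; linarith
        have e3 : (T + C2) * (4 * (Gq (nrm q) u + 1) ^ 2) ≤
            (T + (C1 + C2)) * (4 * (Gq (nrm q) u + 1) ^ 2) := by
          gcongr; linarith
        have e4 : 0 ≤ 1 + δ := by positivity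
        have e5 : 0 ≤ 1 + 1 / δ := by positivity
        refine add_le_add (mul_le_mul_of_nonneg_left (by linarith) e4)
          (mul_le_mul_of_nonneg_left e3 e5)

/-- length of the short sum -/
theorem he_tail (s : ℝ) (hs : 0 < s) : ∃ L0 : ℝ, 0 < L0 ∧ ∀ Λ ℒ : ℝ, L0 ≤ ℒ → 0 ≤ Λ →
    Λ ≤ 2 * ℒ → ∃ N : ℕ, (N : ℝ) ≤ 2 * Real.exp (Λ + s * ℒ) ∧ ∀ u ∈ Set.Icc 0 Λ, Tl N u ≤ 1 := by
  obtain ⟨C8, hC8, h8⟩ := lam_tail
  set A : ℝ := |Real.log C8| with hA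
  have hA0 : 0 ≤ A := abs_nonneg _
  refine ⟨8 * (1 + A) / s ^ 2 + 1, by positivity, fun Λ ℒ hℒ hΛ hΛ2 => ?_⟩
  have hℒ1 : 1 ≤ ℒ := by
    have : 0 ≤ 8 * (1 + A) / s ^ 2 := by positivity
    linarith
  have hℒ0 : 0 < ℒ := by linarith
  set G : ℝ := s * ℒ with hG
  have hG0 : 0 ≤ G := by positivity
  refine ⟨⌈Real.exp (Λ + G)⌉₊, ?_, fun u hu => ?_⟩
  · have h1 : (⌈Real.exp (Λ + G)⌉₊ : ℝ) < Real.exp (Λ + G) + 1 :=
      Nat.ceil_lt_add_one (Real.exp_pos _).le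
    have h2 : 1 ≤ Real.exp (Λ + G) := Real.one_le_exp (by positivity)
    linarith
  · have h1 : Real.exp (Λ + G) ≤ (⌈Real.exp (Λ + G)⌉₊ : ℝ) := Nat.le_ceil _
    have h2 : Λ + G ≤ Real.log (⌈Real.exp (Λ + G)⌉₊ : ℝ) := by
      rw [Real.le_log_iff_exp_le (lt_of_lt_of_le (Real.exp_pos _) h1)]
      exact h1
    have h3 := h8 u G ⌈Real.exp (Λ + G)⌉₊ hu.1 hG0 (by linarith [hu.2])
    refine le_trans h3 ?_
    have h4 : ℒ + A ≤ G ^ 2 / 8 := by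
      have h5 : 8 * (1 + A) ≤ s ^ 2 * ℒ := by
        have : 8 * (1 + A) / s ^ 2 ≤ ℒ := by linarith
        rw [div_le_iff₀ (by positivity)] at this
        linarith
      have h6 : 8 * (1 + A) * ℒ ≤ s ^ 2 * ℒ * ℒ := mul_le_mul_of_nonneg_right h5 hℒ0.le
      have h7 : A ≤ A * ℒ := le_mul_of_one_le_right hA0 hℒ1
      rw [hG, le_div_iff₀ (by norm_num)]
      calc (ℒ + A) * 8 ≤ (ℒ + A * ℒ) * 8 := by linarith
        _ = 8 * (1 + A) * ℒ := by ring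
        _ ≤ s ^ 2 * ℒ * ℒ := h6
        _ = (s * ℒ) ^ 2 := by ring
    calc C8 * Real.exp (u / 2 - G ^ 2 / 8) = Real.exp (Real.log C8 + (u / 2 - G ^ 2 / 8)) := by
          rw [Real.exp_add, Real.exp_log hC8]
      _ ≤ Real.exp 0 := by
          refine Real.exp_le_exp.mpr ?_
          have := le_abs_self (Real.log C8)
          linarith [hu.2]
      _ = 1 := Real.exp_zero

end H385
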