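import Pool.Agent.H385R5.HE8b
import Pool.Agent.H385R3.CycNum
import Pool.Agent.H385R2.FamAbsD
import Pool.Agent.H385R2.NLowD

/-!
TEAM Q3, project HE: all Hecke characters modulo `q`.
-/

open Complex Filter Topology Set MeasureTheory
open H370 (zset mult NN Nd Ns)

set_option maxHeartbeats 4000000

namespace H385

open Pool.Agent.H304R3.HK (tc HC CS bb LamK psi bH aH LH tc_star_mul one_le_norm_tc)

theorem nrm_eq (q : ZI) : ((nrm q : ℕ) : ℝ) = ‖tc q‖ ^ 2 := by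
  rw [tc_star_mul]
  have h : 0 ≤ Zsqrtd.norm q := by
    have := tc_star_mul q
    have h2 : (0 : ℝ) ≤ ((q.norm : ℤ) : ℝ) := by rw [← this]; positivity
    exact_mod_cast h2
  unfold nrm
  rw [← Int.cast_natCast, Int.natAbs_of_nonneg h]

theorem he_aux (cr T' L Sc K : ℝ) (h : cr ≠ 0) :
    (1 / cr) * (2 * (T' * (cr * L - Sc) - cr * K)) = 2 * (T' * (L - Sc / cr) - K) := by
  field_simp

theorem norm_tc_le_of_dvd (d q : ZI) (hq : q ≠ 0) (h : d ∣ q) : ‖tc d‖ ≤ ‖tc q‖ := by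
  obtain ⟨e, rfl⟩ := h
  have he : e ≠ 0 := right_ne_zero_of_mul hq
  have h1 : ‖tc (d * e)‖ ^ 2 = ‖tc d‖ ^ 2 * ‖tc e‖ ^ 2 := by
    rw [tc_star_mul, tc_star_mul, tc_star_mul, Zsqrtd.norm_mul]
    push_cast
    ring
  have h2 : 1 ≤ ‖tc e‖ ^ 2 := by
    have := one_le_norm_tc he
    nlinarith
  have h3 : ‖tc d‖ ^ 2 ≤ ‖tc (d * e)‖ ^ 2 := by
    rw [h1]
    exact le_mul_of_one_le_right (by positivity) h2
  exact (pow_le_pow_iff_left₀ (norm_nonneg _) (norm_nonneg _) (by norm_num)).1 h3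

/-- from the height condition -/
theorem he_height (L0 η : ℝ) (hη : 0 < η) : ∃ C0 : ℝ, 1 ≤ C0 ∧ ∀ (Q : ℝ) (T : ℝ), 1 ≤ Q →
    C0 * (1 + Real.sqrt (Real.log Q)) ≤ T → L0 ≤ Real.log (Q * T) ∧ 1 ≤ T ∧
      4 * Real.sqrt (Real.log (Q * T)) ≤ η * T := by
  -- `√(log T) ≤ (η/8) T` for large `T`
  have h1 : ∃ T1 : ℝ, ∀ T : ℝ, T1 ≤ T → Real.sqrt (Real.log T) ≤ η / 8 * T := by
    refine ⟨max 1 (64 / η ^ 2), fun T hT => ?_⟩
    have hT1 : 1 ≤ T := (le_max_left _ _).trans hT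
    have hT2 : 64 / η ^ 2 ≤ T := (le_max_right _ _).trans hT
    have hlog : Real.log T ≤ T := by
      have := Real.log_le_sub_one_of_pos (show 0 < T by linarith)
      linarith
    rw [Real.sqrt_le_left (by positivity)]
    rw [div_le_iff₀ (by positivity)] at hT2
    have h2 : (η / 8 * T) ^ 2 = (T * η ^ 2) * T / 64 := by ring
    rw [h2]
    have h3 : 64 * T ≤ (T * η ^ 2) * T := mul_le_mul_of_nonneg_right hT2 (by linarith)
    linarith
  obtain ⟨T1, hT1⟩ := h1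
  refine ⟨max (max 1 T1) (max (Real.exp L0) (8 / η)), le_max_of_le_left (le_max_left _ _), ?_⟩
  intro Q T hQ hT
  set C0 := max (max 1 T1) (max (Real.exp L0) (8 / η)) with hC0
  have hC01 : 1 ≤ C0 := le_max_of_le_left (le_max_left _ _)
  have hs := Real.sqrt_nonneg (Real.log Q)
  have hTC : C0 ≤ T := by
    refine le_trans ?_ hT
    nlinarith
  have hT1' : T1 ≤ T := ((le_max_right _ _).trans (le_max_left _ _)).trans hTC
  have hT2 : 1 ≤ T := hC01.trans hTC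
  have hTe : Real.exp L0 ≤ T := ((le_max_left _ _).trans (le_max_right _ _)).trans hTC
  have hC08 : 8 / η ≤ C0 := (le_max_right _ _).trans (le_max_right _ _)
  have hlogq : 0 ≤ Real.log Q := Real.log_nonneg hQ
  have hlogT : 0 ≤ Real.log T := Real.log_nonneg hT2
  have hl : Real.log (Q * T) = Real.log Q + Real.log T :=
    Real.log_mul (by linarith) (by linarith)
  refine ⟨?_, hT2, ?_⟩
  · rw [hl]
    have : L0 ≤ Real.log T := by
      rw [Real.le_log_iff_exp_le (by linarith)]; exact hTe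
    linarith
  · rw [hl]
    have h2 : Real.sqrt (Real.log Q + Real.log T) ≤ Real.sqrt (Real.log Q) +
        Real.sqrt (Real.log T) := by
      have a1 := Real.sqrt_nonneg (Real.log T)
      rw [Real.sqrt_le_left (by positivity)]
      have e : (Real.sqrt (Real.log Q) + Real.sqrt (Real.log T)) ^ 2 = Real.log Q + Real.log T +
          2 * (Real.sqrt (Real.log Q) * Real.sqrt (Real.log T)) := by
        rw [add_sq, Real.sq_sqrt hlogq, Real.sq_sqrt hlogT]; ring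
      rw [e]
      have := mul_nonneg hs a1
      linarith
    have h3 := hT1 T hT1'
    have h4 : Real.sqrt (Real.log Q) ≤ η / 8 * T := by
      have h5 : 8 / η * Real.sqrt (Real.log Q) ≤ T := by
        calc 8 / η * Real.sqrt (Real.log Q) ≤ C0 * (1 + Real.sqrt (Real.log Q)) := by
              refine mul_le_mul hC08 (by linarith) hs (by linarith)
          _ ≤ T := hT
      calc Real.sqrt (Real.log Q) = η / 8 * (8 / η * Real.sqrt (Real.log Q)) := by field_simp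
        _ ≤ _ := by gcongr
    linarith

/-- parameters -/
theorem he_param (β ℒ T κ : ℝ) (hβ1 : β < 2) (hℒ : 1 ≤ ℒ) (hκ : κ = 4 * Real.sqrt ℒ)
    (hT : T ≤ Real.exp ℒ) : 3 ≤ κ ∧ κ ^ 2 = 16 * ℒ ∧ T ≤ Real.exp (κ ^ 2 / 2) ∧
      T ≤ Real.exp (κ ^ 2) ∧ ℒ ^ 2 * Real.exp (β * ℒ - κ ^ 2 / 2) ≤ Real.exp (-(β * ℒ)) ∧
      ℒ ^ 2 * Real.exp (-κ ^ 2 / 2) ≤ 1 := by
  have hs : 1 ≤ Real.sqrt ℒ := by rw [Real.one_le_sqrt]; exact hℒ
  have hκ2 : κ ^ 2 = 16 * ℒ := by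
    rw [hκ, mul_pow, Real.sq_sqrt (by linarith)]; ring
  have hq : ℒ ^ 2 ≤ Real.exp (2 * ℒ) := by
    have h1 : ℒ ≤ Real.exp ℒ := by
      have := Real.add_one_le_exp ℒ
      linarith
    have h2 : Real.exp (2 * ℒ) = Real.exp ℒ ^ 2 := by rw [← Real.exp_nat_mul]; norm_num
    rw [h2]
    exact pow_le_pow_left₀ (by linarith) h1 2
  refine ⟨by rw [hκ]; linarith, hκ2, ?_, ?_, ?_, ?_⟩
  · refine hT.trans (Real.exp_le_exp.mpr ?_)
    rw [hκ2]; linarith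
  · refine hT.trans (Real.exp_le_exp.mpr ?_)
    rw [hκ2]; linarith
  · refine (mul_le_mul_of_nonneg_right hq (Real.exp_pos _).le).trans ?_
    rw [← Real.exp_add]
    refine Real.exp_le_exp.mpr ?_
    rw [hκ2]
    have : β * ℒ ≤ 2 * ℒ := mul_le_mul_of_nonneg_right hβ1.le (by linarith)
    linarith
  · refine (mul_le_mul_of_nonneg_right hq (Real.exp_pos _).le).trans ?_
    rw [← Real.exp_add, ← Real.exp_zero]
    refine Real.exp_le_exp.mpr ?_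
    have e : -κ ^ 2 / 2 = -(8 * ℒ) := by
      rw [show -κ ^ 2 / 2 = -(κ ^ 2) / 2 by ring, hκ2]; ring
    rw [e]; linarith

/-- the short sum is short enough -/
theorem he_short (β s Q T ℒ : ℝ) (hβ : 0 < β) (hs : 0 < s) (hβs : β = 2 - 4 * s) (hQ : 1 ≤ Q)
    (hT : 1 ≤ T) (hTQ : T ≤ Q ^ s) (hℒ : ℒ = Real.log (Q * T)) (hL : 3 / s < Real.log Q)
    (N : ℕ) (hN : (N : ℝ) ≤ 2 * Real.exp (β * ℒ + s * ℒ)) : 4 * (N : ℝ) < Q ^ 2 := by
  have hQ0 : 0 < Q := by linarith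
  have hT0 : 0 < T := by linarith
  have hlQ : 0 ≤ Real.log Q := Real.log_nonneg hQ
  have hlT : Real.log T ≤ s * Real.log Q := by
    have := Real.log_le_log hT0 hTQ
    rwa [Real.log_rpow hQ0] at this
  have hℒ2 : ℒ ≤ (1 + s) * Real.log Q := by
    rw [hℒ, Real.log_mul (by linarith) (by linarith)]; linarith
  have h1 : β * ℒ + s * ℒ ≤ (2 - s) * Real.log Q := by
    have h2 : (β + s) * ℒ ≤ (β + s) * ((1 + s) * Real.log Q) :=
      mul_le_mul_of_nonneg_left hℒ2 (by linarith)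
    have h3 : (β + s) * (1 + s) ≤ 2 - s := by
      rw [hβs]
      nlinarith
    have h4 := mul_le_mul_of_nonneg_right h3 hlQ
    calc β * ℒ + s * ℒ = (β + s) * ℒ := by ring
      _ ≤ (β + s) * ((1 + s) * Real.log Q) := h2
      _ = (β + s) * (1 + s) * Real.log Q := by ring
      _ ≤ _ := h4
  have h5 : Real.exp ((2 - s) * Real.log Q) = Q ^ 2 * Real.exp (-(s * Real.log Q)) := by
    have : (2 - s) * Real.log Q = Real.log (Q ^ 2) + -(s * Real.log Q) := by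
      rw [Real.log_pow]; push_cast; ring
    rw [this, Real.exp_add, Real.exp_log (by positivity)]
  have h6 : 3 < s * Real.log Q := by
    rw [div_lt_iff₀ hs] at hL
    linarith
  have h7 : Real.exp (-(s * Real.log Q)) < 1 / 8 := by
    have h8 : (8 : ℝ) < Real.exp 3 := by
      have h9 : Real.exp 3 = Real.exp 1 ^ 3 := by rw [← Real.exp_nat_mul]; norm_num
      rw [h9]
      have := Real.exp_one_gt_d9
      have h10 : (2 : ℝ) ^ 3 < Real.exp 1 ^ 3 := pow_lt_pow_left₀ (by linarith) (by norm_num)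
        (by norm_num)
      norm_num at h10 ⊢
      linarith
    have h11 : Real.exp 3 < Real.exp (s * Real.log Q) := Real.exp_lt_exp.mpr h6
    rw [Real.exp_neg, one_div]
    exact inv_strictAnti₀ (by norm_num) (h8.trans h11)
  calc 4 * (N : ℝ) ≤ 8 * Real.exp (β * ℒ + s * ℒ) := by linarith
    _ ≤ 8 * Real.exp ((2 - s) * Real.log Q) := by
        have := Real.exp_le_exp.mpr h1
        linarith
    _ = Q ^ 2 * (8 * Real.exp (-(s * Real.log Q))) := by rw [h5]; ring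
    _ < Q ^ 2 * 1 := by
        refine mul_lt_mul_of_pos_left ?_ (by positivity)
        linarith
    _ = Q ^ 2 := mul_one _

/-- the core estimate, for any choice of primitive characters -/
theorem he_core (cd : (q : ZI) → MulChar (RQ q) ℂ → ZI)
    (pr : (q : ZI) → MulChar (RQ q) ℂ → (ZI →* ℂ))
    (hprim : ∀ q : ZI, q ≠ 0 → ∀ χ ∈ FQs q, cd q χ ∣ q ∧ HC (cd q χ) (pr q χ) ∧
      ∀ a : ZI, IsCoprime a q → pr q χ a = chiZ q χ a)
    (hcond : ∀ ε : ℝ, 0 < ε → ∃ C : ℝ, 0 < C ∧ ∀ q : ZI, q ≠ 0 →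
      ∑ χ ∈ FQs q, (Real.log ‖tc q‖ - Real.log ‖tc (cd q χ)‖) ≤
        (ε * Real.log ‖tc q‖ + C) * ((FQs q).card : ℝ))
    (γ β ε : ℝ) (h0 : 0 < γ) (hπ : γ < Real.pi) (hβ : 0 < β) (hβ1 : β < 2)
    (hε : 0 < ε) : ∃ C0 η : ℝ, 1 ≤ C0 ∧ 0 < η ∧ ∀ (q : ZI) (T : ℝ), q ≠ 0 →
      C0 * (1 + Real.sqrt (Real.log ‖tc q‖)) ≤ T → T ≤ ‖tc q‖ ^ η →
      0 < (FQs q).card ∧
      (∑ χ ∈ FQs q, (2 * (NN (LH (pr q χ)) T (2 * T) : ℝ) - (Ns (LH (pr q χ)) T (2 * T) : ℝ)) ≤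
        (2 * Rw γ 0 / β + β * (∫ α in (0 : ℝ)..1, α * Rw γ α) + ε) *
        ∑ χ ∈ FQs q, (NN (LH (pr q χ)) T (2 * T) : ℝ)) ∧
      (∑ χ ∈ FQs q, (3 * (NN (LH (pr q χ)) T (2 * T) : ℝ) -
          2 * (Nd (LH (pr q χ)) T (2 * T) : ℝ)) ≤
        (2 * Rw γ 0 / β + β * (∫ α in (0 : ℝ)..1, α * Rw γ α) + ε) *
        ∑ χ ∈ FQs q, (NN (LH (pr q χ)) T (2 * T) : ℝ)) := by
  classical
  obtain ⟨A, hA1, hgood⟩ := Pool.Agent.H304R3.HK.goodH
  obtain ⟨CS0, hCS0, hS, hcK, hlam⟩ := selb_cK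
  obtain ⟨C1, hC1, hfam⟩ := fam_abstract_D γ h0 hπ 2 A (by norm_num) hA1
  obtain ⟨C1', hC1', hfam'⟩ := fam_abstract_d_D γ h0 hπ 2 A (by norm_num) hA1
  obtain ⟨C2, hC2, hlow⟩ := N_lower_D 2 A (by norm_num) hA1
  set J : ℝ := ∫ α in (0 : ℝ)..1, α * Rw γ α with hJ
  have hJ0 : 0 ≤ J := I1_nonneg γ h0 hπ
  have hR0 : 0 ≤ Rw γ 0 := Rw_nonneg γ h0 hπ 0
  set CC : ℝ := max C1 C1' with hCC
  have hCC0 : 0 < CC := lt_max_of_lt_left hC1
  obtain ⟨ε1, L0, hε1, hL0, hnum⟩ := cyc_num (4 * Rw γ 0) (2 * β * J) β (2 * ε) CC C2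
    (by positivity) (by positivity) hβ (by positivity) hCC0 hC2
  obtain ⟨C5, hC5, hint⟩ := he_int
  obtain ⟨δ, hδ, hδ1, hδ2⟩ : ∃ δ : ℝ, 0 < δ ∧ δ ≤ 1 ∧ 2 * β * J * δ ≤ ε1 / 4 := by
    refine ⟨min 1 (ε1 / 4 / (2 * β * J + 1)), lt_min one_pos (by positivity), min_le_left _ _, ?_⟩
    calc 2 * β * J * min 1 (ε1 / 4 / (2 * β * J + 1)) ≤
        (2 * β * J + 1) * (ε1 / 4 / (2 * β * J + 1)) := by
          gcongr
          · linarith
          · exact min_le_right _ _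
      _ = ε1 / 4 := by field_simp
  obtain ⟨L1, hL1, hpoint⟩ := YH_point cK CS0 hS ε1 C5 hε1 hC5 δ hδ hδ1
  obtain ⟨L2, η2, hL2, hη2, hYint⟩ := YH_integral cK CS0 hS γ β ε1 C5 h0 hπ hβ hβ1 hε1 hC5 δ
    hδ hδ1 hδ2
  obtain ⟨C3, hC3, hcond3⟩ := hcond (ε1 / 2) (by positivity)
  set s : ℝ := (2 - β) / 4 with hs
  have hs0 : 0 < s := by rw [hs]; linarith
  have hs1 : s ≤ 1 := by rw [hs]; linarith
  have hβs : β = 2 - 4 * s := by rw [hs]; ring
  obtain ⟨L3, hL3, htail⟩ := he_tail s hs0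
  obtain ⟨C0, hC01, hheight⟩ := he_height (L0 + L1 + L2 + L3 + 1 / β + 2 * C3 / ε1)
    (min (min ε1 η2) (1 / 8)) (by positivity)
  refine ⟨max C0 (Real.exp (3 / s + 3)), s, le_max_of_le_left hC01, hs0, ?_⟩
  intro q T hq hT hTs
  set Q : ℝ := ‖tc q‖ with hQd
  have hQ1 : 1 ≤ Q := one_le_norm_tc hq
  have hQ0 : 0 < Q := by linarith
  have hsq := Real.sqrt_nonneg (Real.log Q)
  have hTC0 : C0 * (1 + Real.sqrt (Real.log Q)) ≤ T := by
    refine le_trans ?_ hT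
    exact mul_le_mul_of_nonneg_right (le_max_left _ _) (by linarith)
  have hexT : Real.exp (3 / s + 3) ≤ T := by
    refine le_trans ?_ hT
    have h1 : Real.exp (3 / s + 3) ≤ max C0 (Real.exp (3 / s + 3)) := le_max_right _ _
    have h2 : 0 ≤ max C0 (Real.exp (3 / s + 3)) := by
      have := Real.exp_pos (3 / s + 3)
      linarith
    calc _ ≤ max C0 (Real.exp (3 / s + 3)) * 1 := by linarith
      _ ≤ _ := mul_le_mul_of_nonneg_left (by linarith) h2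
  have hQT : T ≤ Q := by
    refine hTs.trans ?_
    calc Q ^ s ≤ Q ^ (1 : ℝ) := Real.rpow_le_rpow_of_exponent_le hQ1 hs1
      _ = Q := Real.rpow_one Q
  have hlogQ : 3 / s + 3 ≤ Real.log Q := by
    rw [Real.le_log_iff_exp_le hQ0]
    exact hexT.trans hQT
  have hlogQ3 : 3 / s < Real.log Q := by linarith
  obtain ⟨hℒ, hT1, hκT⟩ := hheight Q T hQ1 hTC0
  have hnq : ((nrm q : ℕ) : ℝ) = Q ^ 2 := nrm_eq q
  have hQe : Real.exp 3 ≤ Q := by
    refine le_trans (Real.exp_le_exp.mpr ?_) (hexT.trans hQT)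
    have : 0 ≤ 3 / s := by positivity
    linarith
  have hQ4 : 3 ≤ Q := by
    have := Real.add_one_le_exp (3 : ℝ)
    linarith
  have hq4 : 4 < nrm q := by
    have h1 : (4 : ℝ) < (nrm q : ℕ) := by rw [hnq]; nlinarith
    exact_mod_cast h1
  have hnq1 : 1 ≤ nrm q := by omega
  set ℒ : ℝ := Real.log (Q * T) with hℒd
  set κ : ℝ := 4 * Real.sqrt ℒ with hκd
  have hβi : 0 < 1 / β := by positivity
  have hCi : 0 ≤ 2 * C3 / ε1 := by positivity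
  have hℒL0 : L0 ≤ ℒ := by linarith
  have hℒ1 : 1 ≤ ℒ := hL0.trans hℒL0
  have hℒL1 : L1 ≤ ℒ := by linarith
  have hℒL2 : L2 ≤ ℒ := by linarith
  have hℒL3 : L3 ≤ ℒ := by linarith
  have hℒC3 : 2 * C3 / ε1 ≤ ℒ := by linarith
  have hΛ1 : 1 ≤ β * ℒ := by
    have : 1 / β ≤ ℒ := by linarith
    rw [div_le_iff₀ hβ] at this
    linarith
  have hT0 : 0 < T := by linarith
  have hℒ0 : 0 < ℒ := by linarith
  have hTℒ : T ≤ Real.exp ℒ := by
    rw [hℒd, Real.exp_log (by positivity)]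
    nlinarith
  have hlogn : Real.log (nrm q : ℕ) ≤ 2 * ℒ := by
    rw [hnq, Real.log_pow, hℒd]
    push_cast
    have : Real.log Q ≤ Real.log (Q * T) := Real.log_le_log hQ0 (by nlinarith)
    linarith
  obtain ⟨p1, p2, p3, p4, p5, p6⟩ := he_param β ℒ T κ hβ1 hℒ1 hκd hTℒ
  have hκ0 : 0 ≤ κ := by linarith
  have hκ1 : κ ≤ ε1 * T := hκT.trans (by
    refine mul_le_mul_of_nonneg_right ?_ hT0.le
    exact (min_le_left _ _).trans (min_le_left _ _))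
  have hκ2 : κ ≤ η2 * T := hκT.trans (by
    refine mul_le_mul_of_nonneg_right ?_ hT0.le
    exact (min_le_left _ _).trans (min_le_right _ _))
  have hκ8 : 8 * κ ≤ T := by
    have : κ ≤ 1 / 8 * T := hκT.trans (by
      refine mul_le_mul_of_nonneg_right ?_ hT0.le
      exact min_le_right _ _)
    linarith
  have hκT1 : κ ≤ T := by linarith
  obtain ⟨-, hφ, -⟩ := fq_finite q hq
  have hφ0 : (0 : ℝ) < phiQ q := by exact_mod_cast hφ
  have hcard := fq_card q hq4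
  have hc0 : (0 : ℝ) < (FQs q).card := by rw [hcard]; positivity
  have hcn : 0 < (FQs q).card := by exact_mod_cast hc0
  set cr : ℝ := ((FQs q).card : ℝ) with hcr
  have hcr0 : 0 ≤ 1 / cr := div_nonneg zero_le_one hc0.le
  have hW : ∑ _χ ∈ FQs q, (1 / cr) = 1 := by
    rw [Finset.sum_const, nsmul_eq_mul, ← hcr]
    field_simp
  obtain ⟨N, hNb, hN⟩ := htail (β * ℒ) ℒ hℒL3 (by positivity)
    (mul_le_mul_of_nonneg_right hβ1.le hℒ0.le)
  have hNq : 4 * N < nrm q := by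
    have h1 := he_short β s Q T ℒ hβ hs0 hβs hQ1 hT1 hTs hℒd hlogQ3 N hNb
    rw [← hnq] at h1
    exact_mod_cast h1
  obtain ⟨y1, y2, hy1, hy2, m2', m5⟩ := hpoint (nrm q) T κ ℒ hnq1 hT1 hℒL1 hlogn hκ0 hκT1
  have m2 : ∀ u ∈ Set.Icc 0 (β * ℒ), YH cK δ C5 (nrm q) T κ u ≤ T * (y1 * (u + 1) + y2) :=
    fun u hu => m2' u hu.1
  have m4 := hYint (nrm q) T κ ℒ hnq1 hT1 hℒL2 hlogn hκ0 hκ2
  have hpr : ∀ χ ∈ FQs q, HC (cd q χ) (pr q χ) ∧
      ∀ a : ZI, IsCoprime a q → pr q χ a = chiZ q χ a := fun χ hχ => (hprim q hq χ hχ).2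
  have m1 : ∀ u ∈ Set.Icc 0 (β * ℒ), ∫ t : ℝ, ∑ χ ∈ FQs q, (1 / cr) *
      ‖∑' n : ℕ, aH (pr q χ) n * ((Real.sqrt n : ℂ)⁻¹ * bt T u t (Real.log n))‖ ^ 2 ≤
      YH cK δ C5 (nrm q) T κ u := by
    intro u hu
    exact hint δ q (cd q) (pr q) N T κ u hδ hq hq4 hpr hNq (by linarith) hT1 p4 hu.1 (hN u hu)
  have m3 : IntervalIntegrable (YH cK δ C5 (nrm q) T κ) volume 0 (β * ℒ) :=
    (YH_cont _ CS0 hS _ _ _ _ _).intervalIntegrable _ _
  have hcond1 : ∀ χ ∈ FQs q, (1 : ℝ) ≤ ‖tc (cd q χ)‖ :=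
    fun χ hχ => one_le_norm_tc (hpr χ hχ).1.q0
  have hcondq : ∀ χ ∈ FQs q, ‖tc (cd q χ)‖ ≤ Q :=
    fun χ hχ => norm_tc_le_of_dvd _ _ hq (hprim q hq χ hχ).1
  have hlogc : ∀ χ ∈ FQs q, Real.log (‖tc (cd q χ)‖ * T) ≤ ℒ := by
    intro χ hχ
    rw [hℒd]
    refine Real.log_le_log ?_ (mul_le_mul_of_nonneg_right (hcondq χ hχ) hT0.le)
    have := hcond1 χ hχ
    positivity
  have hdata : ∀ χ ∈ FQs q, 0 ≤ (1 / cr) ∧ (1 : ℝ) ≤ ‖tc (cd q χ)‖ ∧
      GoodD 2 A ‖tc (cd q χ)‖ (LH (pr q χ)) (aH (pr q χ)) ∧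
      Real.log (‖tc (cd q χ)‖ * T) ≤ ℒ := by
    intro χ hχ
    exact ⟨hcr0, hcond1 χ hχ, (hgood _ _ (hpr χ hχ).1).2.2.2, hlogc χ hχ⟩
  have k1 := hfam (FQs q) (fun _ => 1 / cr) (fun χ => ‖tc (cd q χ)‖)
    (fun χ => LH (pr q χ)) (fun χ => aH (pr q χ)) T κ (β * ℒ) ℒ y1 y2
    (YH cK δ C5 (nrm q) T κ) hdata p1 hκ8 p3 hΛ1 hℒ1 p5 hy1 hy2 m1 m2 m3
  have k2 := hfam' (FQs q) (fun _ => 1 / cr) (fun χ => ‖tc (cd q χ)‖)
    (fun χ => LH (pr q χ)) (fun χ => aH (pr q χ)) T κ (β * ℒ) ℒ y1 y2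
    (YH cK δ C5 (nrm q) T κ) hdata p1 hκ8 p3 hΛ1 hℒ1 p5 hy1 hy2 m1 m2 m3
  set SN : ℝ := ∑ χ ∈ FQs q, (1 / cr) * (NN (LH (pr q χ)) T (2 * T) : ℝ) with hSN
  -- lower bound for the number of zeros
  have hNlow : T / (2 * Real.pi) * ℒ * (1 - ε1) - C2 * (T + κ * ℒ) ≤ SN / 2 := by
    have hpt : ∀ χ ∈ FQs q,
        2 * (T / (2 * Real.pi) * (ℒ - (Real.log Q - Real.log ‖tc (cd q χ)‖)) -
          C2 * (T + κ * ℒ)) ≤
        (NN (LH (pr q χ)) T (2 * T) : ℝ) := by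
      intro χ hχ
      have hc := hcond1 χ hχ
      have hl := hlow ‖tc (cd q χ)‖ (LH (pr q χ)) (aH (pr q χ)) hc
        (hgood _ _ (hpr χ hχ).1).2.2.2 T κ p1 hκ8
      refine le_trans ?_ hl
      have e1 : Real.log (‖tc (cd q χ)‖ * T) = ℒ - (Real.log Q - Real.log ‖tc (cd q χ)‖) := by
        rw [hℒd, Real.log_mul (by linarith) (by linarith), Real.log_mul (by linarith) (by linarith)]
        ring
      have hn : 0 ≤ Real.log (‖tc (cd q χ)‖ * T) := Real.log_nonneg (by nlinarith)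
      have a3 : T * Real.log (‖tc (cd q χ)‖ * T) ^ 2 * Real.exp (-κ ^ 2 / 2) ≤ T := by
        have b1 : Real.log (‖tc (cd q χ)‖ * T) ^ 2 ≤ ℒ ^ 2 :=
          pow_le_pow_left₀ hn (hlogc χ hχ) 2
        have b2 : Real.log (‖tc (cd q χ)‖ * T) ^ 2 * Real.exp (-κ ^ 2 / 2) ≤ 1 :=
          (mul_le_mul_of_nonneg_right b1 (Real.exp_pos _).le).trans p6
        calc _ = T * (Real.log (‖tc (cd q χ)‖ * T) ^ 2 * Real.exp (-κ ^ 2 / 2)) := by ring
          _ ≤ T * 1 := mul_le_mul_of_nonneg_left b2 hT0.le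
          _ = T := mul_one T
      have a4 : κ * Real.log (‖tc (cd q χ)‖ * T) ≤ κ * ℒ :=
        mul_le_mul_of_nonneg_left (hlogc χ hχ) hκ0
      have a5 : C2 * (T + κ * Real.log (‖tc (cd q χ)‖ * T) +
          T * Real.log (‖tc (cd q χ)‖ * T) ^ 2 * Real.exp (-κ ^ 2 / 2)) ≤
          2 * C2 * (T + κ * ℒ) := by
        have hκℒ : 0 ≤ κ * ℒ := by positivity
        calc _ ≤ C2 * (T + κ * ℒ + T) := mul_le_mul_of_nonneg_left (by linarith) hC2.le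
          _ ≤ C2 * (2 * (T + κ * ℒ)) := mul_le_mul_of_nonneg_left (by linarith) hC2.le
          _ = _ := by ring
      rw [← e1]
      linarith
    have hsum : ∑ χ ∈ FQs q, (1 / cr) *
        (2 * (T / (2 * Real.pi) * (ℒ - (Real.log Q - Real.log ‖tc (cd q χ)‖)) -
          C2 * (T + κ * ℒ))) ≤ SN :=
      Finset.sum_le_sum fun χ hχ => mul_le_mul_of_nonneg_left (hpt χ hχ) hcr0
    have hcs := hcond3 q hq
    set Sc : ℝ := ∑ χ ∈ FQs q, (Real.log Q - Real.log ‖tc (cd q χ)‖) with hSc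
    have e2 : ∑ χ ∈ FQs q, (1 / cr) *
        (2 * (T / (2 * Real.pi) * (ℒ - (Real.log Q - Real.log ‖tc (cd q χ)‖)) -
          C2 * (T + κ * ℒ))) =
        2 * (T / (2 * Real.pi) * (ℒ - Sc / cr) - C2 * (T + κ * ℒ)) := by
      rw [← Finset.mul_sum, ← Finset.mul_sum, Finset.sum_sub_distrib, ← Finset.mul_sum,
        Finset.sum_sub_distrib, ← hSc, Finset.sum_const, Finset.sum_const, nsmul_eq_mul,
        nsmul_eq_mul, ← hcr]
      exact he_aux cr _ ℒ Sc _ hc0.ne'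
    rw [e2] at hsum
    have hSc2 : Sc / cr ≤ ε1 * ℒ := by
      rw [div_le_iff₀ hc0]
      refine hcs.trans (mul_le_mul_of_nonneg_right ?_ hc0.le)
      have hlq : Real.log Q ≤ ℒ := by
        rw [hℒd]
        exact Real.log_le_log (by linarith) (by nlinarith)
      have h3 : C3 ≤ ε1 / 2 * ℒ := by
        rw [div_le_iff₀ hε1] at hℒC3
        linarith
      have h4 : ε1 / 2 * Real.log Q ≤ ε1 / 2 * ℒ := mul_le_mul_of_nonneg_left hlq (by positivity)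
      linarith
    have h5 : T / (2 * Real.pi) * ℒ * (1 - ε1) ≤ T / (2 * Real.pi) * (ℒ - Sc / cr) := by
      have : T / (2 * Real.pi) * ℒ * (1 - ε1) = T / (2 * Real.pi) * (ℒ - ε1 * ℒ) := by ring
      rw [this]
      exact mul_le_mul_of_nonneg_left (by linarith) (by positivity)
    linarith
  have core : ∀ (D SM : ℝ), 0 < D → D ≤ CC →
      SM ≤ (∑ _χ ∈ FQs q, (1 / cr)) * (2 * ℒ) ^ 2 * Rw γ 0 * T /
          (2 * Real.pi * (β * ℒ)) +
        (2 / (Real.sqrt Real.pi * (β * ℒ))) *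
          (∫ u in (0 : ℝ)..(β * ℒ), Rw γ (u / (β * ℒ)) * YH cK δ C5 (nrm q) T κ u) +
        D * ((∑ _χ ∈ FQs q, (1 / cr)) *
          (ℒ ^ 2 * κ / (β * ℒ) + ℒ * T / (β * ℒ) + κ * ℒ) +
          Real.sqrt (∑ _χ ∈ FQs q, (1 / cr)) * ℒ * T *
            (Real.sqrt y1 + Real.sqrt y2) / (β * ℒ)) →
      cr * SM ≤ (2 * Rw γ 0 / β + β * J + ε) *
        ∑ χ ∈ FQs q, (NN (LH (pr q χ)) T (2 * T) : ℝ) := by
    intro D SM hD hDC hSM
    rw [hW, Real.sqrt_one, one_mul, one_mul, one_mul] at hSM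
    have h1 : SM ≤ (4 * Rw γ 0 / β + 2 * β * J + 2 * ε) * (SN / 2) := by
      refine hnum T ℒ κ (Real.sqrt y1 + Real.sqrt y2) _ SM _ hT0 hℒL0 hκ0 hκ1 m5 m4 ?_ hNlow
      refine hSM.trans ?_
      have hb : 0 ≤ (ℒ ^ 2 * κ / (β * ℒ) + ℒ * T / (β * ℒ) + κ * ℒ) +
          ℒ * T * (Real.sqrt y1 + Real.sqrt y2) / (β * ℒ) := by positivity
      have := mul_le_mul_of_nonneg_right hDC hb
      have e : (2 * ℒ) ^ 2 * Rw γ 0 * T = ℒ ^ 2 * (4 * Rw γ 0) * T := by ring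
      rw [e]
      linarith
    have h2 : (4 * Rw γ 0 / β + 2 * β * J + 2 * ε) * (SN / 2) =
        (2 * Rw γ 0 / β + β * J + ε) * SN := by ring
    rw [h2] at h1
    have h3 : cr * SN = ∑ χ ∈ FQs q, (NN (LH (pr q χ)) T (2 * T) : ℝ) := by
      rw [hSN, ← Finset.mul_sum, ← mul_assoc, mul_one_div_cancel hc0.ne', one_mul]
    calc cr * SM ≤ cr * ((2 * Rw γ 0 / β + β * J + ε) * SN) :=
          mul_le_mul_of_nonneg_left h1 hc0.le
      _ = (2 * Rw γ 0 / β + β * J + ε) * (cr * SN) := by ring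
      _ = _ := by rw [h3]
  refine ⟨hcn, ?_, ?_⟩
  · have := core C1 _ hC1 (le_max_left _ _) k1
    refine le_trans (le_of_eq ?_) this
    rw [← Finset.mul_sum, ← mul_assoc, mul_one_div_cancel hc0.ne', one_mul]
  · have := core C1' _ hC1' (le_max_right _ _) k2
    refine le_trans (le_of_eq ?_) this
    rw [← Finset.mul_sum, ← mul_assoc, mul_one_div_cancel hc0.ne', one_mul]

end H385
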