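import Pool.Agent.H385R5.HE8c
import Pool.Agent.H385R2.WinE

/-!
TEAM Q3, project HE: the numerical constants.
-/

open Complex Filter Topology Set MeasureTheory
open H370 (zset mult NN Nd Ns)

set_option maxHeartbeats 4000000

namespace H385

open Pool.Agent.H304R3.HK (tc HC CS bb LamK psi bH aH LH tc_star_mul one_le_norm_tc)

/-- all Hecke characters modulo `q`, every `q`, for any choice of primitive characters -/
theorem he_final (cd : (q : ZI) → MulChar (RQ q) ℂ → ZI)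
    (pr : (q : ZI) → MulChar (RQ q) ℂ → (ZI →* ℂ))
    (hprim : ∀ q : ZI, q ≠ 0 → ∀ χ ∈ FQs q, cd q χ ∣ q ∧ HC (cd q χ) (pr q χ) ∧
      ∀ a : ZI, IsCoprime a q → pr q χ a = chiZ q χ a)
    (hcond : ∀ ε : ℝ, 0 < ε → ∃ C : ℝ, 0 < C ∧ ∀ q : ZI, q ≠ 0 →
      ∑ χ ∈ FQs q, (Real.log ‖tc q‖ - Real.log ‖tc (cd q χ)‖) ≤
        (ε * Real.log ‖tc q‖ + C) * ((FQs q).card : ℝ)) :
    ∃ C0 η : ℝ, 1 ≤ C0 ∧ 0 < η ∧ ∀ (q : ZI) (T : ℝ), q ≠ 0 →
      C0 * (1 + Real.sqrt (Real.log ‖tc q‖)) ≤ T → T ≤ ‖tc q‖ ^ η →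
      0 < (FQs q).card ∧
      (0.6725 * ∑ χ ∈ FQs q, (NN (LH (pr q χ)) T (2 * T) : ℝ) ≤
        ∑ χ ∈ FQs q, (Ns (LH (pr q χ)) T (2 * T) : ℝ)) ∧
      (0.83625 * ∑ χ ∈ FQs q, (NN (LH (pr q χ)) T (2 * T) : ℝ) ≤
        ∑ χ ∈ FQs q, (Nd (LH (pr q χ)) T (2 * T) : ℝ)) := by
  have h0 : (0 : ℝ) < 1.414 := by norm_num
  have hπ : (1.414 : ℝ) < Real.pi := by linarith [Real.pi_gt_three]
  set R0 : ℝ := Rw 1.414 0 with hR0
  have hR0n : 0 ≤ R0 := Rw_nonneg 1.414 h0 hπ 0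
  set J : ℝ := ∫ α in (0 : ℝ)..1, α * Rw 1.414 α with hJ
  have hJn : 0 ≤ J := I1_nonneg 1.414 h0 hπ
  have hconst : R0 + 2 * J < 1.3275 := Rw_const_d2
  set e : ℝ := 1.3275 - (R0 + 2 * J) with he
  have he0 : 0 < e := by rw [he]; linarith
  -- choose β = 2 (1 - s)
  set s : ℝ := min (1 / 2) (e / (4 * R0 + 1)) with hs
  have hs0 : 0 < s := by positivity
  have hs1 : s ≤ 1 / 2 := min_le_left _ _
  have hs2 : 4 * R0 * s ≤ e := by
    have h1 : s ≤ e / (4 * R0 + 1) := min_le_right _ _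
    calc 4 * R0 * s ≤ 4 * R0 * (e / (4 * R0 + 1)) := mul_le_mul_of_nonneg_left h1 (by positivity)
      _ = e * (4 * R0 / (4 * R0 + 1)) := by ring
      _ ≤ e * 1 := by
        refine mul_le_mul_of_nonneg_left ?_ he0.le
        rw [div_le_one (by positivity)]; linarith
      _ = e := mul_one e
  set β' : ℝ := 1 - s with hβ'
  have hβ'0 : 0 < β' := by rw [hβ']; linarith
  have hβ'1 : β' < 1 := by rw [hβ']; linarith
  have hβh : 1 / 2 ≤ β' := by rw [hβ']; linarith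
  have e2 : R0 / β' ≤ R0 + e / 2 := by
    rw [div_le_iff₀ hβ'0]
    have h1 : (R0 + e / 2) * β' = R0 - R0 * s + e / 2 * β' := by rw [hβ']; ring
    have h2 : e / 2 * (1 / 2) ≤ e / 2 * β' := mul_le_mul_of_nonneg_left hβh (by linarith)
    rw [h1]
    linarith
  have e3 : 2 * β' * J ≤ 2 * J := by
    have : 2 * β' * J = 2 * (β' * J) := by ring
    rw [this]
    have : β' * J ≤ 1 * J := mul_le_mul_of_nonneg_right hβ'1.le hJn
    linarith
  obtain ⟨C0, η, hC0, hη, h⟩ := he_core cd pr hprim hcond 1.414 (2 * β') (e / 2) h0 hπ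
    (by positivity) (by linarith) (by positivity)
  refine ⟨C0, η, hC0, hη, ?_⟩
  intro q T hq hT hT2
  obtain ⟨b0, b1, b2⟩ := h q T hq hT hT2
  have hcc : 2 * R0 / (2 * β') + 2 * β' * J + e / 2 ≤ 1.3275 := by
    have h1 : 2 * R0 / (2 * β') = R0 / β' := by field_simp
    have : R0 + 2 * J + e = 1.3275 := by rw [he]; ring
    rw [h1]
    linarith
  set SN : ℝ := ∑ χ ∈ FQs q, (NN (LH (pr q χ)) T (2 * T) : ℝ) with hSN
  set SS : ℝ := ∑ χ ∈ FQs q, (Ns (LH (pr q χ)) T (2 * T) : ℝ) with hSS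
  set SD : ℝ := ∑ χ ∈ FQs q, (Nd (LH (pr q χ)) T (2 * T) : ℝ) with hSD
  have hSN0 : 0 ≤ SN := Finset.sum_nonneg fun χ _ => Nat.cast_nonneg _
  rw [Finset.sum_sub_distrib, ← Finset.mul_sum, ← hSN, ← hSS] at b1
  rw [Finset.sum_sub_distrib, ← Finset.mul_sum, ← Finset.mul_sum, ← hSN, ← hSD] at b2
  have c3 := mul_le_mul_of_nonneg_right hcc hSN0
  have c1 : 2 * SN - SS ≤ 1.3275 * SN := le_trans b1 c3
  have c2 : 3 * SN - 2 * SD ≤ 1.3275 * SN := le_trans b2 c3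
  refine ⟨b0, ?_, ?_⟩
  · norm_num at c1 ⊢
    linarith
  · norm_num at c2 ⊢
    linarith

end H385
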