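import Pool.Agent.H304R3.HK.Fin
import Pool.Agent.H385R2.FinDB
import Pool.Agent.H385R3.Cyc5

/-!
TEAM Q3 (helper385, helper304): Hecke characters of `ℚ(i)` of infinity type one modulo `q`, every
modulus `q`.  Definitions for the mean square side.
-/

open Complex Filter Topology Set MeasureTheory

namespace H385

open Pool.Agent.H304R3.HK (tc HC CS bb LamK psi bH aH LH)

/-- Gaussian integers -/
abbrev ZI := GaussianInt

/-- residue ring modulo `q` -/
abbrev RQ (q : ZI) := ZI ⧸ Ideal.span {q}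

/-- the imaginary unit of `ℤ[i]` -/
def im1 : ZI := ⟨0, 1⟩

/-- a character of `(ℤ[i]/q)ˣ` as a function on `ℤ[i]` -/
noncomputable def chiZ (q : ZI) (χ : MulChar (RQ q) ℂ) : ZI →* ℂ :=
  χ.toMonoidHom.comp (Ideal.Quotient.mk (Ideal.span {q})).toMonoidHom

/-- the characters with `χ(i) = -i` -/
def FQ (q : ZI) : Set (MulChar (RQ q) ℂ) := {χ | chiZ q χ im1 = -I}

open Classical in
/-- the same as a finite set -/
noncomputable def FQs (q : ZI) : Finset (MulChar (RQ q) ℂ) :=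
  if h : (FQ q).Finite then h.toFinset else ∅

/-- number of units of the residue ring -/
noncomputable def phiQ (q : ZI) : ℕ := Nat.card (RQ q)ˣ

/-- Gaussian integers of norm between `1` and `N` -/
noncomputable def BX (N : ℕ) : Finset ZI :=
  (((Finset.Icc (-(N : ℤ)) N) ×ˢ (Finset.Icc (-(N : ℤ)) N)).filter
    (fun p : ℤ × ℤ => 1 ≤ p.1 ^ 2 + p.2 ^ 2 ∧ p.1 ^ 2 + p.2 ^ 2 ≤ (N : ℤ))).image
      (fun p : ℤ × ℤ => (⟨p.1, p.2⟩ : ZI))

/-- norm as a natural number -/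
def nrm (a : ZI) : ℕ := a.norm.natAbs

open Classical in
/-- coefficients of the prime sum, as a function on `ℤ[i]` : `Λ(a) b(N a) a / |a|` for `a` coprime
to `q` -/
noncomputable def wZ (q : ZI) (b : ℕ → ℂ) (a : ZI) : ℂ :=
  if IsCoprime a q then (LamK a : ℂ) * (tc a / (‖tc a‖ : ℂ)) * b (nrm a) else 0

/-- `∑_{N(𝔞) = n} Λ(𝔞)²` -/
noncomputable def lamK2 (n : ℕ) : ℝ := (bb (fun a => ((LamK a : ℝ) : ℂ) ^ 2) n).re

/-- `∑_{N(𝔞) = n} Λ(𝔞)² = Λ(n)² c(n)²` -/
noncomputable def cK (n : ℕ) : ℂ :=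
  ((Real.sqrt (lamK2 n) / ArithmeticFunction.vonMangoldt n : ℝ) : ℂ)

end H385
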