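import Pool.Agent.H385R5.HeDefs

/-!
TEAM Q3 (helper385): statements of the independent tasks, mean square side.
-/

open Complex Filter Topology Set MeasureTheory

namespace H385

open Pool.Agent.H304R3.HK (tc HC CS bb LamK psi bH aH LH)

/-- HE1: finiteness -/
theorem fq_finite (q : ZI) (hq : q ≠ 0) : Finite (MulChar (RQ q) ℂ) ∧ 0 < phiQ q ∧
    ∀ χ : MulChar (RQ q) ℂ, χ ∈ FQs q ↔ chiZ q χ im1 = -I := by
  sorry

open Classical in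
/-- HE2: orthogonality -/
theorem fq_orth (q : ZI) (hq : q ≠ 0) (a b : ZI) (ha : IsCoprime a q) (hb : IsCoprime b q) :
    ∑ χ ∈ FQs q, chiZ q χ a * (starRingEnd ℂ) (chiZ q χ b) =
      (phiQ q : ℂ) / 4 * ∑ j ∈ Finset.range 4, I ^ j *
        (if Ideal.Quotient.mk (Ideal.span {q}) (im1 ^ j * a) =
            Ideal.Quotient.mk (Ideal.span {q}) b then 1 else 0) := by
  sorry

/-- HE3: number of characters -/
theorem fq_card (q : ZI) (hq : 4 < nrm q) : ((FQs q).card : ℝ) = (phiQ q : ℝ) / 4 := by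
  sorry

/-- HE4: the mean square is diagonal for short sums (from HE1, HE2) -/
theorem fq_ms (q : ZI) (N : ℕ) (hN : 4 * N < nrm q) (b : ℕ → ℂ) :
    ∑ χ ∈ FQs q, ‖(1 / 4 : ℂ) * ∑ a ∈ BX N, wZ q b a * chiZ q χ a‖ ^ 2 ≤
      (phiQ q : ℝ) / 4 * ∑ n ∈ Finset.Icc 1 N, lamK2 n * ‖b n‖ ^ 2 := by
  sorry

/-- HE5: from the full prime sum of the primitive character to the short sum -/
theorem he_point (q d : ZI) (hq : q ≠ 0) (χ : MulChar (RQ q) ℂ) (χ' : ZI →* ℂ)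
    (h : HC d χ') (hχ : ∀ a : ZI, IsCoprime a q → χ' a = chiZ q χ a) (N : ℕ) (T u t : ℝ)
    (hT : 0 ≤ T) (hu : 0 ≤ u) :
    ‖∑' n : ℕ, aH χ' n * bn T u t n - (1 / 4 : ℂ) * ∑ a ∈ BX N, wZ q (bn T u t) a * chiZ q χ a‖ ≤
      wt T t * (2 * (Gq (nrm q) u + Tl N u)) := by
  sorry

/-- HE6: `Λ_K²` on norms -/
theorem lamK2_bound (n : ℕ) : 0 ≤ lamK2 n ∧
    lamK2 n ≤ 4 * ArithmeticFunction.vonMangoldt n ^ 2 ∧
    (n.Prime → lamK2 n = ArithmeticFunction.vonMangoldt n ^ 2 *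
      (1 + ((ZMod.χ₄ (n : ZMod 4) : ℤ) : ℝ))) := by
  sorry

/-- HE7: Selberg type asymptotics (from HE6) -/
theorem selb_cK : ∃ C : ℝ, 0 ≤ C ∧ Selb cK C ∧ (∀ n, ‖cK n‖ ≤ 2) ∧
    ∀ n, lamK2 n = ArithmeticFunction.vonMangoldt n ^ 2 * ‖cK n‖ ^ 2 := by
  sorry

end H385
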