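import Pool.Agent.H385R5.HeDefs

/-!
TEAM Q3 (helper385): statements of the tasks about conductors.
-/

open Complex Filter Topology Set MeasureTheory

namespace H385

open Pool.Agent.H304R3.HK (tc HC CS bb LamK psi bH aH LH)

/-- HE9: the primitive character inducing `χ` -/
theorem prim_exists (q : ZI) (hq : q ≠ 0) (χ : MulChar (RQ q) ℂ) (hχ : chiZ q χ im1 = -I) :
    ∃ (d : ZI) (ψ : ZI →* ℂ), d ∣ q ∧ HC d ψ ∧ ∀ a : ZI, IsCoprime a q → ψ a = chiZ q χ a := by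
  sorry

/-- HE10: the conductors are large on average (for any choice of the primitive characters) -/
theorem he_cond (cd : (q : ZI) → MulChar (RQ q) ℂ → ZI)
    (pr : (q : ZI) → MulChar (RQ q) ℂ → (ZI →* ℂ))
    (hprim : ∀ q : ZI, q ≠ 0 → ∀ χ ∈ FQs q, cd q χ ∣ q ∧ HC (cd q χ) (pr q χ) ∧
      ∀ a : ZI, IsCoprime a q → pr q χ a = chiZ q χ a) (ε : ℝ) (hε : 0 < ε) :
    ∃ C : ℝ, 0 < C ∧ ∀ q : ZI, q ≠ 0 →
      ∑ χ ∈ FQs q, (Real.log ‖tc q‖ - Real.log ‖tc (cd q χ)‖) ≤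
        (ε * Real.log ‖tc q‖ + C) * ((FQs q).card : ℝ) := by
  sorry

end H385
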